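import Pool.Agent.N673.HR.PL

set_option autoImplicit false

open Complex Metric Set Filter Topology

namespace Pool.Agent.N673.HR

variable {n : ℕ}

/-- real basis of `ℂⁿ` -/
noncomputable def bas (i : Fin n ⊕ Fin n) : Fin n → ℂ :=
  Sum.elim (fun l => Pi.single l (1 : ℂ)) (fun l => Pi.single l I) i

/-- real coordinates on `ℂⁿ` -/
noncomputable def crd (i : Fin n ⊕ Fin n) (z : Fin n → ℂ) : ℝ :=
  Sum.elim (fun l => (z l).re) (fun l => (z l).im) i

/-- complexified coordinates -/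
noncomputable def xi (i : Fin n ⊕ Fin n) : ((Fin n → ℂ) × (Fin n → ℂ)) →L[ℂ] ℂ :=
  Sum.elim
    (fun l => (1 / 2 : ℂ) • ((ContinuousLinearMap.proj l).comp (ContinuousLinearMap.fst ℂ _ _) +
      (ContinuousLinearMap.proj l).comp (ContinuousLinearMap.snd ℂ _ _)))
    (fun l => (-I / 2 : ℂ) • ((ContinuousLinearMap.proj l).comp (ContinuousLinearMap.fst ℂ _ _) -
      (ContinuousLinearMap.proj l).comp (ContinuousLinearMap.snd ℂ _ _))) i

theorem norm_bas_le (i : Fin n ⊕ Fin n) : ‖bas i‖ ≤ 1 := by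
  rcases i with l | l
  · simp only [bas, Sum.elim_inl]
    rw [Pi.norm_single]; simp
  · simp only [bas, Sum.elim_inr]
    rw [Pi.norm_single]; simp

theorem norm_xi_le (i : Fin n ⊕ Fin n) : ‖xi i‖ ≤ 1 := by
  refine ContinuousLinearMap.opNorm_le_bound _ zero_le_one (fun q => ?_)
  have h1 : ∀ l, ‖q.1 l‖ ≤ ‖q‖ := fun l => (norm_le_pi_norm q.1 l).trans (norm_fst_le q)
  have h2 : ∀ l, ‖q.2 l‖ ≤ ‖q‖ := fun l => (norm_le_pi_norm q.2 l).trans (norm_snd_le q)
  rcases i with l | l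
  · have : xi (Sum.inl l) q = (1 / 2 : ℂ) * (q.1 l + q.2 l) := by simp [xi, mul_add]
    rw [this, norm_mul]
    have h3 := norm_add_le (q.1 l) (q.2 l)
    have h4 := h1 l
    have h5 := h2 l
    have : ‖(1 / 2 : ℂ)‖ = 1 / 2 := by simp
    rw [this]; linarith
  · have : xi (Sum.inr l) q = (-I / 2 : ℂ) * (q.1 l - q.2 l) := by simp [xi]
    rw [this, norm_mul]
    have h3 := norm_sub_le (q.1 l) (q.2 l)
    have h4 := h1 l
    have h5 := h2 l
    have : ‖(-I / 2 : ℂ)‖ = 1 / 2 := by simp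
    rw [this]; linarith

theorem xi_conj (i : Fin n ⊕ Fin n) (z : Fin n → ℂ) :
    xi i (z, fun l => starRingEnd ℂ (z l)) = (crd i z : ℂ) := by
  rcases i with l | l
  · have : xi (Sum.inl l) (z, fun l => starRingEnd ℂ (z l)) =
      (1 / 2 : ℂ) * (z l + starRingEnd ℂ (z l)) := by simp [xi, mul_add]
    rw [this, add_conj]
    simp [crd]
  · have : xi (Sum.inr l) (z, fun l => starRingEnd ℂ (z l)) =
      (-I / 2 : ℂ) * (z l - starRingEnd ℂ (z l)) := by simp [xi]
    rw [this, sub_conj]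
    simp only [crd, Sum.elim_inr]
    push_cast
    ring_nf
    simp

theorem sum_crd (z : Fin n → ℂ) : ∑ i, crd i z • bas i = z := by
  rw [Fintype.sum_sum_type]
  ext l
  simp only [crd, bas, Sum.elim_inl, Sum.elim_inr, Pi.add_apply, Finset.sum_apply, Pi.smul_apply]
  have h1 : ∀ c : Fin n, (z c).re • (Pi.single c (1 : ℂ) : Fin n → ℂ) l =
      if l = c then ((z c).re : ℂ) else 0 := by
    intro c
    rw [Pi.single_apply]
    split_ifs <;> simp
  have h2 : ∀ c : Fin n, (z c).im • (Pi.single c (I : ℂ) : Fin n → ℂ) l =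
      if l = c then ((z c).im : ℂ) * I else 0 := by
    intro c
    rw [Pi.single_apply]
    split_ifs <;> simp
  rw [Finset.sum_congr rfl (fun c _ => h1 c), Finset.sum_congr rfl (fun c _ => h2 c)]
  simp only [Finset.sum_ite_eq, Finset.mem_univ, if_true]
  exact re_add_im _

/-- the complexified power series -/
noncomputable def cser (p : FormalMultilinearSeries ℝ (Fin n → ℂ) ℝ) :
    FormalMultilinearSeries ℂ ((Fin n → ℂ) × (Fin n → ℂ)) ℂ := fun m =>
  ∑ i : Fin m → (Fin n ⊕ Fin n), ((p m (fun l => bas (i l)) : ℝ) : ℂ) •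
    (ContinuousMultilinearMap.mkPiAlgebra ℂ (Fin m) ℂ).compContinuousLinearMap (fun l => xi (i l))

theorem norm_cser_le (p : FormalMultilinearSeries ℝ (Fin n → ℂ) ℝ) (m : ℕ) :
    ‖cser p m‖ ≤ (2 * n : ℝ) ^ m * ‖p m‖ := by
  unfold cser
  refine (norm_sum_le _ _).trans ?_
  have h1 : ∀ i : Fin m → (Fin n ⊕ Fin n), ‖((p m (fun l => bas (i l)) : ℝ) : ℂ) •
    (ContinuousMultilinearMap.mkPiAlgebra ℂ (Fin m) ℂ).compContinuousLinearMap
      (fun l => xi (i l))‖ ≤ ‖p m‖ := by
    intro i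
    rw [norm_smul]
    have h2 : ‖((p m (fun l => bas (i l)) : ℝ) : ℂ)‖ ≤ ‖p m‖ := by
      rw [norm_real]
      refine ((p m).le_opNorm _).trans ?_
      have : ∏ l, ‖bas (i l)‖ ≤ 1 := Finset.prod_le_one (fun _ _ => norm_nonneg _)
        (fun _ _ => norm_bas_le _)
      calc ‖p m‖ * ∏ l, ‖bas (i l)‖ ≤ ‖p m‖ * 1 := by gcongr
        _ = _ := mul_one _
    have h3 : ‖(ContinuousMultilinearMap.mkPiAlgebra ℂ (Fin m) ℂ).compContinuousLinearMap
      (fun l => xi (i l))‖ ≤ 1 := by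
      refine (ContinuousMultilinearMap.norm_compContinuousLinearMap_le _ _).trans ?_
      rw [ContinuousMultilinearMap.norm_mkPiAlgebra, one_mul]
      exact Finset.prod_le_one (fun _ _ => norm_nonneg _) (fun _ _ => norm_xi_le _)
    calc _ ≤ ‖p m‖ * 1 := by gcongr
      _ = _ := mul_one _
  refine (Finset.sum_le_sum (fun i _ => h1 i)).trans ?_
  rw [Finset.sum_const, nsmul_eq_mul, Finset.card_univ]
  apply le_of_eq
  congr 1
  rw [Fintype.card_fun, Fintype.card_sum, Fintype.card_fin, Fintype.card_fin]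
  push_cast
  ring

theorem cser_apply (p : FormalMultilinearSeries ℝ (Fin n → ℂ) ℝ) (m : ℕ) (z : Fin n → ℂ) :
    cser p m (fun _ => (z, fun l => starRingEnd ℂ (z l))) = ((p m (fun _ => z) : ℝ) : ℂ) := by
  have h1 : p m (fun _ => z) = ∑ i : Fin m → (Fin n ⊕ Fin n),
      (∏ l, crd (i l) z) * p m (fun l => bas (i l)) := by
    conv_lhs => rw [← sum_crd z]
    rw [(p m).map_sum]
    refine Finset.sum_congr rfl (fun i _ => ?_)
    rw [(p m).map_smul_univ]
    rfl
  rw [h1]
  unfold cser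
  rw [sum_apply]
  push_cast
  refine Finset.sum_congr rfl (fun i _ => ?_)
  have h2 : (((p m (fun l => bas (i l)) : ℝ) : ℂ) •
    (ContinuousMultilinearMap.mkPiAlgebra ℂ (Fin m) ℂ).compContinuousLinearMap
      (fun l => xi (i l))) (fun _ => (z, fun l => starRingEnd ℂ (z l))) =
      ((p m (fun l => bas (i l)) : ℝ) : ℂ) * ∏ l, xi (i l) (z, fun l => starRingEnd ℂ (z l)) := by
    rfl
  refine h2.trans ?_
  simp only [xi_conj]
  ring

theorem cser_radius_pos {p : FormalMultilinearSeries ℝ (Fin n → ℂ) ℝ} (hp : 0 < p.radius) :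
    0 < (cser p).radius := by
  obtain ⟨r, hr0, hr⟩ := ENNReal.lt_iff_exists_nnreal_btwn.1 hp
  have hr0' : 0 < r := by exact_mod_cast hr0
  obtain ⟨C, hC, hb⟩ := p.norm_le_div_pow_of_pos_of_lt_radius hr0' hr
  set s : NNReal := r / (2 * n + 1) with hs
  have hspos : 0 < s := by positivity
  refine lt_of_lt_of_le (by exact_mod_cast hspos) ((cser p).le_radius_of_bound C (r := s) ?_)
  intro m
  have h1 := norm_cser_le p m
  have h2 := hb m
  have hr' : (0 : ℝ) < r := by exact_mod_cast hr0'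
  have hn1 : (0 : ℝ) < 2 * n + 1 := by positivity
  have hs' : (s : ℝ) = (r : ℝ) / (2 * n + 1) := by
    rw [hs]; push_cast; rfl
  calc ‖cser p m‖ * (s : ℝ) ^ m ≤ ((2 * n : ℝ) ^ m * (C / (r : ℝ) ^ m)) * (s : ℝ) ^ m := by
        gcongr
        exact h1.trans (by gcongr)
    _ = C * ((2 * n : ℝ) / (2 * n + 1)) ^ m := by
        rw [hs', div_pow, div_pow]
        field_simp
    _ ≤ C * 1 := by
        gcongr
        apply pow_le_one₀ (by positivity)
        rw [div_le_one hn1]; linarith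
    _ = C := mul_one _

/-- **Complexification**: a real-analytic real function near `0 ∈ ℂⁿ` is the restriction to the
conjugate diagonal of a function holomorphic on a product of two balls. -/
theorem complexify {p : (Fin n → ℂ) → ℝ} (hp : AnalyticAt ℝ p 0) :
    ∃ r : ℝ, 0 < r ∧ ∃ Φ : (Fin n → ℂ) × (Fin n → ℂ) → ℂ,
      DifferentiableOn ℂ Φ (ball 0 r) ∧
      ∀ z ∈ ball (0 : Fin n → ℂ) r, Φ (z, fun l => starRingEnd ℂ (z l)) = p z := by
  obtain ⟨q, R, hq⟩ := hp
  have hq0 : 0 < q.radius := hq.r_pos.trans_le hq.r_le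
  have hc := (cser q).hasFPowerSeriesOnBall (cser_radius_pos hq0)
  obtain ⟨r, hr0, hr⟩ := ENNReal.lt_iff_exists_nnreal_btwn.1
    (lt_min hq.r_pos (cser_radius_pos hq0))
  have hr0' : (0 : ℝ) < r := by exact_mod_cast hr0
  refine ⟨r, hr0', (cser q).sum, ?_, ?_⟩
  · refine hc.differentiableOn.mono ?_
    rw [← Metric.eball_coe]
    exact Metric.eball_subset_eball (hr.le.trans (min_le_right _ _))
  · intro z hz
    have hz1 : z ∈ Metric.eball (0 : Fin n → ℂ) R := by
      rw [← Metric.eball_coe] at hz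
      exact Metric.eball_subset_eball (hr.le.trans (min_le_left _ _)) hz
    have hz2 : (z, fun l => starRingEnd ℂ (z l)) ∈
        Metric.eball (0 : (Fin n → ℂ) × (Fin n → ℂ)) (cser q).radius := by
      have : (z, fun l => starRingEnd ℂ (z l)) ∈
          Metric.ball (0 : (Fin n → ℂ) × (Fin n → ℂ)) (r : ℝ) := by
        rw [mem_ball_zero_iff] at hz ⊢
        rw [Prod.norm_def, max_lt_iff]
        refine ⟨hz, ?_⟩
        rw [pi_norm_lt_iff hr0'] at hz ⊢
        intro i
        simpa using hz i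
      rw [← Metric.eball_coe] at this
      exact Metric.eball_subset_eball (hr.le.trans (min_le_right _ _)) this
    have h1 := hq.hasSum hz1
    have h2 := hc.hasSum hz2
    rw [zero_add] at h1 h2
    simp only [cser_apply] at h2
    exact h2.unique (Complex.hasSum_ofReal.2 h1)

end Pool.Agent.N673.HR
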