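import Pool.Agent.N673.HR.PL

set_option autoImplicit false

open Complex Metric Set Filter Topology

namespace Pool.Agent.N673.HR

variable {E : Type*} [NormedAddCommGroup E] [NormedSpace ℂ E]
variable {F : Type*} [NormedAddCommGroup F] [NormedSpace ℂ F] [CompleteSpace F]

/-- gluing -/
theorem glue {ι : Type*} (U : ι → Set E) (g : ι → E → F) (hU : ∀ i, IsOpen (U i))
    (hg : ∀ i, DifferentiableOn ℂ (g i) (U i))
    (hcomp : ∀ i j, ∀ x ∈ U i ∩ U j, g i x = g j x) :
    ∃ G : E → F, (∀ i, ∀ x ∈ U i, G x = g i x) ∧ DifferentiableOn ℂ G (⋃ i, U i) := by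
  classical
  refine ⟨fun x => if h : ∃ i, x ∈ U i then g h.choose x else 0, ?_, ?_⟩
  · intro i x hx
    have h : ∃ i, x ∈ U i := ⟨i, hx⟩
    simp only [h, dite_true]
    exact hcomp _ _ x ⟨h.choose_spec, hx⟩
  · intro x hx
    obtain ⟨i, hi⟩ := mem_iUnion.1 hx
    apply DifferentiableAt.differentiableWithinAt
    have h1 : DifferentiableAt ℂ (g i) x := (hg i x hi).differentiableAt ((hU i).mem_nhds hi)
    refine h1.congr_of_eventuallyEq ?_
    filter_upwards [(hU i).mem_nhds hi] with y hy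
    have h : ∃ i, y ∈ U i := ⟨i, hy⟩
    simp only [h, dite_true]
    exact hcomp _ _ y ⟨h.choose_spec, hy⟩

/-- two balls with a common point have a common point on the segment of centers. -/
theorem balls_seg {x y : E} {r s : ℝ} (hr : 0 < r) (hs : 0 < s) {w : E}
    (hw1 : w ∈ ball x r) (hw2 : w ∈ ball y s) :
    ∃ z ∈ segment ℝ x y, z ∈ ball x r ∩ ball y s := by
  have hd : dist x y < r + s := by
    calc dist x y ≤ dist x w + dist w y := dist_triangle _ _ _
      _ < r + s := by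
        rw [mem_ball] at hw1 hw2
        rw [dist_comm x w]
        linarith
  have hrs : 0 < r + s := by linarith
  refine ⟨x + (r / (r + s)) • (y - x), ?_, ?_, ?_⟩
  · rw [segment_eq_image']
    refine ⟨r / (r + s), ⟨by positivity, ?_⟩, rfl⟩
    rw [div_le_one hrs]; linarith
  · rw [mem_ball, dist_eq_norm, add_sub_cancel_left, norm_smul, Real.norm_eq_abs,
      abs_of_pos (by positivity), div_mul_eq_mul_div, div_lt_iff₀ hrs]
    rw [dist_comm, dist_eq_norm] at hd
    exact mul_lt_mul_of_pos_left hd hr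
  · rw [mem_ball, dist_eq_norm]
    have : x + (r / (r + s)) • (y - x) - y = (s / (r + s)) • (x - y) := by
      have h1 : s / (r + s) = 1 - r / (r + s) := by field_simp; ring
      rw [h1]; module
    rw [this, norm_smul, Real.norm_eq_abs, abs_of_pos (by positivity), div_mul_eq_mul_div,
      div_lt_iff₀ hrs]
    rw [dist_eq_norm] at hd
    exact mul_lt_mul_of_pos_left hd hs

/-- **growing balls**: if every extension of the germ `f` to a ball around `0` can be continued
across every point of the closed ball, then `f` extends to an entire function. -/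
theorem grow [ProperSpace E] {f : E → F} {r₀ : ℝ} (hr₀ : 0 < r₀)
    (hf : DifferentiableOn ℂ f (ball 0 r₀))
    (H : ∀ ρ > 0, ∀ g : E → F, DifferentiableOn ℂ g (ball 0 ρ) → g =ᶠ[𝓝 0] f →
      ∀ x ∈ closedBall (0 : E) ρ, ∃ r > 0, ∃ h : E → F, DifferentiableOn ℂ h (ball x r) ∧
        ∀ z ∈ ball x r ∩ ball 0 ρ, h z = g z) :
    ∃ G : E → F, Differentiable ℂ G ∧ G =ᶠ[𝓝 0] f := by
  classical
  set S : Set ℝ := {ρ : ℝ | 0 < ρ ∧ ∃ g : E → F, DifferentiableOn ℂ g (ball 0 ρ) ∧ g =ᶠ[𝓝 0] f}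
    with hS
  have hSr₀ : r₀ ∈ S := ⟨hr₀, f, hf, EventuallyEq.rfl⟩
  have hg : ∀ ρ : S, ∃ g : E → F, DifferentiableOn ℂ g (ball 0 (ρ : ℝ)) ∧ g =ᶠ[𝓝 0] f :=
    fun ρ => ρ.2.2
  choose g hgd hge using hg
  -- compatibility
  have hcomp : ∀ (i j : S), ∀ x ∈ ball (0 : E) (i : ℝ) ∩ ball (0 : E) (j : ℝ), g i x = g j x := by
    intro i j x hx
    refine line_id' (isOpen_ball.inter isOpen_ball) ((convex_ball (0 : E) (i : ℝ)).inter
      (convex_ball (0 : E) (j : ℝ))) ((hgd i).mono inter_subset_left)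
      ((hgd j).mono inter_subset_right) (z₀ := 0) ?_ ?_ x hx
    · exact ⟨mem_ball_self i.2.1, mem_ball_self j.2.1⟩
    · filter_upwards [hge i, hge j] with z h1 h2
      rw [h1, h2]
  obtain ⟨G, hG1, hG2⟩ := glue (fun i : S => ball (0 : E) (i : ℝ)) g (fun i => isOpen_ball) hgd hcomp
  have hGf : G =ᶠ[𝓝 0] f := by
    have h1 := hge ⟨r₀, hSr₀⟩
    filter_upwards [h1, ball_mem_nhds (0 : E) hr₀] with z hz hz2
    rw [hG1 ⟨r₀, hSr₀⟩ z hz2, hz]
  by_cases hb : BddAbove S
  · exfalso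
    set R := sSup S with hR
    have hRpos : 0 < R := hr₀.trans_le (le_csSup hb hSr₀)
    have hGR : DifferentiableOn ℂ G (ball 0 R) := by
      refine hG2.mono ?_
      intro x hx
      rw [mem_ball_zero_iff] at hx
      obtain ⟨ρ, hρ, hxρ⟩ := exists_lt_of_lt_csSup ⟨r₀, hSr₀⟩ hx
      rw [mem_iUnion]
      exact ⟨⟨ρ, hρ⟩, by simpa using hxρ⟩
    have hloc := H R hRpos G hGR hGf
    -- local extensions at the points of the closed ball
    have hloc' : ∀ x : closedBall (0 : E) R, ∃ r > 0, ∃ h : E → F,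
        DifferentiableOn ℂ h (ball (x : E) r) ∧ ∀ z ∈ ball (x : E) r ∩ ball 0 R, h z = G z :=
      fun x => hloc x x.2
    choose r hr h hh1 hh2 using hloc'
    have hcomp2 : ∀ x y : closedBall (0 : E) R, ∀ z ∈ ball (x : E) (r x) ∩ ball (y : E) (r y),
        h x z = h y z := by
      intro x y z hz
      obtain ⟨w, hw, hwx, hwy⟩ := balls_seg (hr x) (hr y) hz.1 hz.2
      have hwR : w ∈ closedBall (0 : E) R :=
        (convex_closedBall (0 : E) R).segment_subset x.2 y.2 hw
      have hcl : w ∈ closure (ball (0 : E) R) := by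
        rw [closure_ball (0 : E) hRpos.ne']; exact hwR
      have hopen : IsOpen (ball (x : E) (r x) ∩ ball (y : E) (r y)) :=
        isOpen_ball.inter isOpen_ball
      obtain ⟨v, hv1, hv2⟩ := _root_.mem_closure_iff.1 hcl _ hopen ⟨hwx, hwy⟩
      refine line_id' hopen ((convex_ball (x : E) (r x)).inter (convex_ball (y : E) (r y)))
        ((hh1 x).mono inter_subset_left) ((hh1 y).mono inter_subset_right) (z₀ := v) hv1 ?_ z hz
      filter_upwards [(hopen.inter isOpen_ball).mem_nhds ⟨hv1, hv2⟩] with u hu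
      rw [hh2 x u ⟨hu.1.1, hu.2⟩, hh2 y u ⟨hu.1.2, hu.2⟩]
    obtain ⟨K, hK1, hK2⟩ := glue (fun x : closedBall (0 : E) R => ball (x : E) (r x)) h
      (fun i => isOpen_ball) hh1 hcomp2
    have hsub : closedBall (0 : E) R ⊆ ⋃ x : closedBall (0 : E) R, ball (x : E) (r x) := by
      intro x hx
      exact mem_iUnion.2 ⟨⟨x, hx⟩, mem_ball_self (hr _)⟩
    have hopen : IsOpen (⋃ x : closedBall (0 : E) R, ball (x : E) (r x)) :=
      isOpen_iUnion (fun _ => isOpen_ball)
    obtain ⟨δ, hδ, hδ2⟩ := (isCompact_closedBall (0 : E) R).exists_thickening_subset_open hopen hsub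
    have hthick : ball (0 : E) (R + δ / 2) ⊆ ⋃ x : closedBall (0 : E) R, ball (x : E) (r x) := by
      refine Subset.trans ?_ hδ2
      intro x hx
      rw [mem_thickening_iff]
      rw [mem_ball_zero_iff] at hx
      by_cases hxR : ‖x‖ ≤ R
      · exact ⟨x, by simpa using hxR, by simpa using hδ⟩
      · push Not at hxR
        have hx0 : 0 < ‖x‖ := hRpos.trans hxR
        refine ⟨(R / ‖x‖) • x, ?_, ?_⟩
        · rw [mem_closedBall_zero_iff, norm_smul, Real.norm_eq_abs, abs_of_pos (by positivity),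
            div_mul_cancel₀ _ hx0.ne']
        · have e : x - (R / ‖x‖) • x = (1 - R / ‖x‖) • x := by module
          have h1 : 0 ≤ 1 - R / ‖x‖ := by
            rw [sub_nonneg, div_le_one hx0]; exact hxR.le
          rw [dist_eq_norm, e, norm_smul, Real.norm_eq_abs, abs_of_nonneg h1, sub_mul, one_mul,
            div_mul_cancel₀ _ hx0.ne']
          linarith
    have hmem : R + δ / 2 ∈ S := by
      refine ⟨by positivity, K, hK2.mono hthick, ?_⟩
      have h0 : (0 : E) ∈ closedBall (0 : E) R := by simpa using hRpos.le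
      have h1 : ∀ᶠ z in 𝓝 (0 : E), z ∈ ball (0 : E) (r ⟨0, h0⟩) ∩ ball 0 R :=
        (isOpen_ball.inter isOpen_ball).mem_nhds ⟨mem_ball_self (hr _), mem_ball_self hRpos⟩
      filter_upwards [h1, hGf] with z hz hz2
      rw [hK1 ⟨0, h0⟩ z hz.1, hh2 ⟨0, h0⟩ z hz, hz2]
    have := le_csSup hb hmem
    linarith
  · refine ⟨G, ?_, hGf⟩
    intro x
    rw [not_bddAbove_iff] at hb
    obtain ⟨ρ, hρ, hx⟩ := hb ‖x‖
    have : x ∈ ⋃ i : S, ball (0 : E) (i : ℝ) := mem_iUnion.2 ⟨⟨ρ, hρ⟩, by simpa using hx⟩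
    exact (hG2 x this).differentiableAt ((isOpen_iUnion (fun _ => isOpen_ball)).mem_nhds this)

end Pool.Agent.N673.HR
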