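import Pool.Agent.N673.HR.Rank
import Pool.Agent.N673.HR.Cplx

set_option autoImplicit false

open Complex Metric Set Filter Topology

namespace Pool.Agent.N673.HR

variable {n : ℕ}

/-- line rank hypothesis -/
def LR (k : ℕ) (p : (Fin n → ℂ) → ℝ) : Prop :=
  ∀ a v : Fin n → ℂ, ∃ (ε : Fin k → ℝ) (g : Fin k → ℂ → ℂ), (∀ j, Differentiable ℂ (g j)) ∧
    ∀ t : ℂ, p (a + t • v) = ∑ j, ε j * Complex.normSq (g j t)

/-- the kernel attached to the complexification -/
noncomputable def ker (Φ : (Fin n → ℂ) × (Fin n → ℂ) → ℂ) (x y : Fin n → ℂ) : ℂ :=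
  Φ (x, fun l => starRingEnd ℂ (y l))

theorem mem_prod_ball {r : ℝ} {x y : Fin n → ℂ} (hx : x ∈ ball (0 : Fin n → ℂ) r)
    (hy : y ∈ ball (0 : Fin n → ℂ) r) :
    ((x, fun l => starRingEnd ℂ (y l)) : (Fin n → ℂ) × (Fin n → ℂ)) ∈
      ball (0 : (Fin n → ℂ) × (Fin n → ℂ)) r := by
  rw [mem_ball_zero_iff] at hx hy ⊢
  have hr : 0 < r := (norm_nonneg _).trans_lt hx
  rw [Prod.norm_def, max_lt_iff]
  refine ⟨hx, ?_⟩
  rw [pi_norm_lt_iff hr] at hy ⊢
  intro i
  simpa using hy i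

theorem ker_SH {r : ℝ} {Φ : (Fin n → ℂ) × (Fin n → ℂ) → ℂ}
    (hΦ : DifferentiableOn ℂ Φ (ball 0 r)) : SH (ball (0 : Fin n → ℂ) r) (ker Φ) := by
  intro z₁ z₂ y₁ y₂
  have e : (fun τ : ℂ => ker Φ (z₁ + τ • z₂) (y₁ + (starRingEnd ℂ τ) • y₂)) =
      fun τ : ℂ => Φ (z₁ + τ • z₂, (fun l => starRingEnd ℂ (y₁ l)) +
        τ • (fun l => starRingEnd ℂ (y₂ l))) := by
    ext τ
    unfold ker
    congr 2
    ext l
    simp
  rw [e]
  refine hΦ.comp (by fun_prop) ?_
  intro τ hτ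
  have := mem_prod_ball hτ.1 hτ.2
  convert this using 2
  ext l
  simp

theorem ker_left {r : ℝ} {Φ : (Fin n → ℂ) × (Fin n → ℂ) → ℂ}
    (hΦ : DifferentiableOn ℂ Φ (ball 0 r)) {y : Fin n → ℂ} (hy : y ∈ ball (0 : Fin n → ℂ) r) :
    DifferentiableOn ℂ (fun x => ker Φ x y) (ball 0 r) := by
  refine hΦ.comp (by fun_prop) ?_
  intro x hx
  exact mem_prod_ball hx hy

/-- conjugating in domain and codomain preserves complex differentiability -/
theorem diff_conj_conj {G : (Fin n → ℂ) → ℂ} {U : Set (Fin n → ℂ)} (hU : IsOpen U)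
    (hG : DifferentiableOn ℂ G {w | (fun l => starRingEnd ℂ (w l)) ∈ U}) :
    DifferentiableOn ℂ (fun y : Fin n → ℂ => starRingEnd ℂ (G (fun l => starRingEnd ℂ (y l)))) U := by
  intro y hy
  apply DifferentiableAt.differentiableWithinAt
  have hcc : Continuous (fun w : Fin n → ℂ => fun l => starRingEnd ℂ (w l)) :=
    continuous_pi (fun l => Complex.continuous_conj.comp (continuous_apply l))
  have hopen : IsOpen {w : Fin n → ℂ | (fun l => starRingEnd ℂ (w l)) ∈ U} := hU.preimage hcc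
  have hy' : (fun l => starRingEnd ℂ (y l)) ∈ {w : Fin n → ℂ | (fun l => starRingEnd ℂ (w l)) ∈ U} := by
    simpa using hy
  have h1 : HasFDerivAt G (fderiv ℂ G (fun l => starRingEnd ℂ (y l))) (fun l => starRingEnd ℂ (y l)) :=
    ((hG _ hy').differentiableAt (hopen.mem_nhds hy')).hasFDerivAt
  set L := fderiv ℂ G (fun l => starRingEnd ℂ (y l)) with hL
  -- the conjugated derivative
  set L' : (Fin n → ℂ) →L[ℂ] ℂ :=
    LinearMap.toContinuousLinearMap
      { toFun := fun v => starRingEnd ℂ (L (fun l => starRingEnd ℂ (v l)))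
        map_add' := by
          intro u v
          have : (fun l => starRingEnd ℂ ((u + v) l)) =
            (fun l => starRingEnd ℂ (u l)) + (fun l => starRingEnd ℂ (v l)) := by
            ext l; simp
          rw [this, map_add, map_add]
        map_smul' := by
          intro c v
          have : (fun l => starRingEnd ℂ ((c • v) l)) =
            (starRingEnd ℂ c) • (fun l => starRingEnd ℂ (v l)) := by
            ext l; simp
          rw [this, map_smul, smul_eq_mul, map_mul, Complex.conj_conj]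
          rfl } with hL'
  refine ⟨L', ?_⟩
  rw [hasFDerivAt_iff_isLittleO_nhds_zero] at h1 ⊢
  have hc0 : Tendsto (fun v : Fin n → ℂ => (fun l => starRingEnd ℂ (v l))) (𝓝 0) (𝓝 0) := by
    have := hcc.tendsto 0
    have e0 : (fun l => starRingEnd ℂ ((0 : Fin n → ℂ) l)) = (0 : Fin n → ℂ) := by
      ext l; simp
    rw [e0] at this
    exact this
  have h2 := h1.comp_tendsto hc0
  have hnorm : ∀ v : Fin n → ℂ, ‖(fun l => starRingEnd ℂ (v l) : Fin n → ℂ)‖ = ‖v‖ := by
    intro v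
    rw [Pi.norm_def, Pi.norm_def]
    simp
  rw [← Asymptotics.isLittleO_norm_norm] at h2 ⊢
  refine (h2.congr (fun v => ?_) (fun v => ?_))
  · simp only [Function.comp]
    have e1 : (fun l => starRingEnd ℂ ((y + v) l)) =
      (fun l => starRingEnd ℂ (y l)) + (fun l => starRingEnd ℂ (v l)) := by
      ext l; simp
    rw [e1]
    have e2 : L' v = starRingEnd ℂ (L (fun l => starRingEnd ℂ (v l))) := rfl
    rw [e2, ← map_sub, ← map_sub, RCLike.norm_conj]
  · simp only [Function.comp, hnorm]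

theorem ker_right {r : ℝ} {Φ : (Fin n → ℂ) × (Fin n → ℂ) → ℂ}
    (hΦ : DifferentiableOn ℂ Φ (ball 0 r)) {x : Fin n → ℂ} (hx : x ∈ ball (0 : Fin n → ℂ) r) :
    DifferentiableOn ℂ (fun y => starRingEnd ℂ (ker Φ x y)) (ball 0 r) := by
  refine diff_conj_conj (G := fun w => Φ (x, w)) isOpen_ball ?_
  refine hΦ.comp (by fun_prop) ?_
  intro w hw
  have := mem_prod_ball hx hw
  simpa using this

/-- restriction of the kernel to a line -/
theorem line_ker {k : ℕ} {p : (Fin n → ℂ) → ℝ} (hLR : LR k p) {r : ℝ}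
    {P : (Fin n → ℂ) → (Fin n → ℂ) → ℂ} (hP : SH (ball 0 r) P)
    (hPp : ∀ z ∈ ball (0 : Fin n → ℂ) r, P z z = p z) (a v : Fin n → ℂ) :
    RK {t : ℂ | a + t • v ∈ ball (0 : Fin n → ℂ) r} {t : ℂ | a + t • v ∈ ball (0 : Fin n → ℂ) r}
      (fun t s => P (a + t • v) (a + s • v)) k := by
  obtain ⟨ε, g, hg, hpg⟩ := hLR a v
  set T : Set ℂ := {t : ℂ | a + t • v ∈ ball (0 : Fin n → ℂ) r} with hT
  have hTo : IsOpen T := isOpen_ball.preimage (f := fun t : ℂ => a + t • v) (by fun_prop)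
  have hTc : Convex ℝ T := by
    intro τ hτ σ hσ α β hα hβ hαβ
    have h := (convex_ball (0 : Fin n → ℂ) r) hτ hσ hα hβ hαβ
    have e : a + (α • τ + β • σ) • v = α • (a + τ • v) + β • (a + σ • v) := by
      have h1 : a = (α + β) • a := by rw [hαβ, one_smul]
      calc a + (α • τ + β • σ) • v = (α + β) • a + (α • τ + β • σ) • v := by rw [← h1]
        _ = _ := by
          simp only [add_smul, smul_add, smul_assoc]
          abel
    show a + (α • τ + β • σ) • v ∈ ball (0 : Fin n → ℂ) r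
    rw [e]; exact h
  have hSH1 : SH T (fun t s => P (a + t • v) (a + s • v)) := by
    intro z₁ z₂ y₁ y₂
    have h := hP (a + z₁ • v) (z₂ • v) (a + y₁ • v) (y₂ • v)
    refine (h.mono ?_).congr ?_
    · intro τ hτ
      refine ⟨?_, ?_⟩
      · have := hτ.1
        simp only [hT, mem_ofPred_eq] at this
        convert this using 1
        simp only [smul_eq_mul, add_smul, mul_smul]; abel
      · have := hτ.2
        simp only [hT, mem_ofPred_eq] at this
        convert this using 1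
        simp only [smul_eq_mul, add_smul, mul_smul]; abel
    · intro τ hτ
      simp only
      congr 1
      · simp only [smul_eq_mul, add_smul, mul_smul]; abel
      · simp only [smul_eq_mul, add_smul, mul_smul]; abel
  have hSH2 : SH T (fun t s => ∑ j, ((ε j : ℝ) : ℂ) * (g j t * starRingEnd ℂ (g j s))) :=
    SH.sum _ (fun j _ => SH.const_mul _ (SH.prod hTo (hg j).differentiableOn (hg j).differentiableOn))
  have key := PL hTo hTc (hSH1.sub hSH2) (fun t ht => by
    have h1 : P (a + t • v) (a + t • v) = p (a + t • v) := hPp _ ht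
    rw [h1, hpg t, sub_eq_zero]
    push_cast
    refine Finset.sum_congr rfl (fun j _ => ?_)
    rw [Complex.mul_conj])
  refine RK_of_factor (ι := Fin k) (by simp) (fun j t => ((ε j : ℝ) : ℂ) * g j t)
    (fun j s => starRingEnd ℂ (g j s)) ?_
  intro t ht s hs
  have := key t ht s hs
  rw [sub_eq_zero.1 this]
  refine Finset.sum_congr rfl (fun j _ => ?_)
  ring

/-- rank of the kernel on a product of two different axis-parallel discs -/
theorem two_lines {k : ℕ} {p : (Fin n → ℂ) → ℝ} (hLR : LR k p) {r : ℝ} (hr : 0 < r)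
    {P : (Fin n → ℂ) → (Fin n → ℂ) → ℂ} (hP : SH (ball 0 r) P)
    (hPp : ∀ z ∈ ball (0 : Fin n → ℂ) r, P z z = p z) (l m : Fin n) (a b : Fin n → ℂ)
    (ha : a ∈ ball (0 : Fin n → ℂ) r) (hb : b ∈ ball (0 : Fin n → ℂ) r) :
    RK (ball (0 : ℂ) r) (ball (0 : ℂ) r)
      (fun t s => P (Function.update a l t) (Function.update b m s)) k := by
  rintro ⟨t, s, ht, hs, hdet⟩
  apply hdet
  set B : Set (Fin n → ℂ) := ball (0 : Fin n → ℂ) r with hB
  set U : Set ((Fin n → ℂ) × (Fin n → ℂ)) :=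
    {X | (∀ i, X.1 + t i • X.2 ∈ B) ∧ (∀ j, X.1 + s j • X.2 ∈ B)} with hU
  have hUo : IsOpen U := by
    have : U = (⋂ i, {X : (Fin n → ℂ) × (Fin n → ℂ) | X.1 + t i • X.2 ∈ B}) ∩
        (⋂ j, {X : (Fin n → ℂ) × (Fin n → ℂ) | X.1 + s j • X.2 ∈ B}) := by
      ext X; simp [hU]
    rw [this]
    refine (isOpen_iInter_of_finite (fun i => ?_)).inter (isOpen_iInter_of_finite (fun i => ?_))
    · exact isOpen_ball.preimage
        (f := fun X : (Fin n → ℂ) × (Fin n → ℂ) => X.1 + t i • X.2) (by fun_prop)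
    · exact isOpen_ball.preimage
        (f := fun X : (Fin n → ℂ) × (Fin n → ℂ) => X.1 + s i • X.2) (by fun_prop)
  have hcx : ∀ (c : ℂ) (X Y : (Fin n → ℂ) × (Fin n → ℂ)) (α β : ℝ), 0 ≤ α → 0 ≤ β → α + β = 1 →
      X.1 + c • X.2 ∈ B → Y.1 + c • Y.2 ∈ B →
      (α • X + β • Y).1 + c • (α • X + β • Y).2 ∈ B := by
    intro c X Y α β hα hβ hαβ hX hY
    have h := (convex_ball (0 : Fin n → ℂ) r) hX hY hα hβ hαβ
    have e : (α • X + β • Y).1 + c • (α • X + β • Y).2 =
        α • (X.1 + c • X.2) + β • (Y.1 + c • Y.2) := by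
      simp only [Prod.fst_add, Prod.snd_add, Prod.smul_fst, Prod.smul_snd, smul_add]
      rw [smul_comm c α, smul_comm c β]
      abel
    rw [e]; exact h
  have hUc : Convex ℝ U := by
    intro X hX Y hY α β hα hβ hαβ
    exact ⟨fun i => hcx _ X Y α β hα hβ hαβ (hX.1 i) (hY.1 i),
      fun j => hcx _ X Y α β hα hβ hαβ (hX.2 j) (hY.2 j)⟩
  have hSH : SH U (fun X Y => (Matrix.of fun i j =>
      P (X.1 + t i • X.2) (Y.1 + s j • Y.2)).det) := by
    intro z₁ z₂ y₁ y₂
    simp only [Matrix.det_apply]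
    refine DifferentiableOn.fun_sum (fun σ _ => ?_)
    refine DifferentiableOn.const_smul ?_ _
    refine DifferentiableOn.fun_finsetProd (fun i _ => ?_)
    simp only [Matrix.of_apply]
    have h := hP (z₁.1 + t (σ i) • z₁.2) (z₂.1 + t (σ i) • z₂.2)
      (y₁.1 + s i • y₁.2) (y₂.1 + s i • y₂.2)
    have e1 : ∀ (τ c : ℂ) (u w : (Fin n → ℂ) × (Fin n → ℂ)),
        (u + τ • w).1 + c • (u + τ • w).2 = (u.1 + c • u.2) + τ • (w.1 + c • w.2) := by
      intro τ c u w
      simp only [Prod.fst_add, Prod.snd_add, Prod.smul_fst, Prod.smul_snd, smul_add]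
      rw [smul_comm c τ]
      abel
    simp only [e1]
    refine h.mono ?_
    intro τ hτ
    refine ⟨?_, ?_⟩
    · have := hτ.1.1 (σ i)
      rwa [e1] at this
    · have := hτ.2.2 i
      rwa [e1] at this
  have key := PL hUo hUc hSH (fun X hX => by
    by_contra hne
    refine line_ker hLR hP hPp X.1 X.2 ⟨t, s, fun i => hX.1 i, fun j => hX.2 j, hne⟩)
  have hupd : ∀ (c : Fin n → ℂ) (q : Fin n) (τ : ℂ),
      Function.update c q 0 + τ • (Pi.single q (1 : ℂ) : Fin n → ℂ) = Function.update c q τ := by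
    intro c q τ
    ext i
    by_cases h : i = q
    · subst h; simp
    · simp [h]
  have hupB : ∀ (c : Fin n → ℂ), c ∈ B → ∀ (q : Fin n) (τ : ℂ), τ ∈ ball (0 : ℂ) r →
      Function.update c q τ ∈ B := by
    intro c hc q τ hτ
    rw [hB, mem_ball_zero_iff, pi_norm_lt_iff hr] at hc ⊢
    intro i
    by_cases h : i = q
    · subst h; simpa using hτ
    · simpa [h] using hc i
  have := key (Function.update a l 0, Pi.single l (1 : ℂ)) ?_
    (Function.update b m 0, Pi.single m (1 : ℂ)) ?_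
  · simpa only [hupd] using this
  · refine ⟨fun i => ?_, fun j => ?_⟩
    · simp only [hupd]; exact hupB a ha _ _ (ht i)
    · simp only [hupd]; exact hupB a ha _ _ (hs j)
  · refine ⟨fun i => ?_, fun j => ?_⟩
    · simp only [hupd]; exact hupB b hb _ _ (ht i)
    · simp only [hupd]; exact hupB b hb _ _ (hs j)

/-- local finite rank -/
theorem local_rank {k : ℕ} {p : (Fin n → ℂ) → ℝ} (hLR : LR k p) (hp : AnalyticAt ℝ p 0) :
    ∃ r > 0, ∃ P : (Fin n → ℂ) → (Fin n → ℂ) → ℂ,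
      (∀ y ∈ ball (0 : Fin n → ℂ) r, DifferentiableOn ℂ (fun x => P x y) (ball 0 r)) ∧
      (∀ x ∈ ball (0 : Fin n → ℂ) r,
        DifferentiableOn ℂ (fun y => starRingEnd ℂ (P x y)) (ball 0 r)) ∧
      (∀ z ∈ ball (0 : Fin n → ℂ) r, P z z = p z) ∧
      RK (ball (0 : Fin n → ℂ) r) (ball (0 : Fin n → ℂ) r) P ((k ^ n) ^ n) := by
  obtain ⟨r, hr, Φ, hΦ, hΦp⟩ := complexify hp
  refine ⟨r, hr, ker Φ, fun y hy => ker_left hΦ hy, fun x hx => ker_right hΦ hx, hΦp, ?_⟩
  have hSH := ker_SH hΦ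
  have hupB : ∀ (c : Fin n → ℂ), c ∈ ball (0 : Fin n → ℂ) r → ∀ (q : Fin n) (τ : ℂ),
      τ ∈ ball (0 : ℂ) r → Function.update c q τ ∈ ball (0 : Fin n → ℂ) r := by
    intro c hc q τ hτ
    rw [mem_ball_zero_iff, pi_norm_lt_iff hr] at hc ⊢
    intro i
    by_cases h : i = q
    · subst h; simpa using hτ
    · simpa [h] using hc i
  have step1 : ∀ (m : Fin n) (b : Fin n → ℂ), b ∈ ball (0 : Fin n → ℂ) r →
      RK (ball (0 : Fin n → ℂ) r) (ball (0 : ℂ) r)
        (fun x s => ker Φ x (Function.update b m s)) (k ^ n) := by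
    intro m b hb
    refine axis n k (ball (0 : ℂ) r) (fun x s => ker Φ x (Function.update b m s)) r hr ?_ ?_
    · intro s hs
      exact ker_left hΦ (hupB b hb m s hs)
    · intro l a ha
      exact two_lines hLR hr hSH hΦp l m a b ha hb
  have step2 : RK (ball (0 : Fin n → ℂ) r) (ball (0 : Fin n → ℂ) r)
      (fun y x => starRingEnd ℂ (ker Φ x y)) ((k ^ n) ^ n) := by
    refine axis n (k ^ n) (ball (0 : Fin n → ℂ) r) (fun y x => starRingEnd ℂ (ker Φ x y)) r hr ?_ ?_
    · intro x hx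
      exact ker_right hΦ hx
    · intro m b hb
      exact (step1 m b hb).swap.conj
  have := step2.swap.conj
  simpa only [Complex.conj_conj] using this

/-- local representation `p = ∑ aⱼ conj bⱼ` with linearly independent `aⱼ`, `bⱼ`. -/
theorem local_rep {k : ℕ} {p : (Fin n → ℂ) → ℝ} (hLR : LR k p)
    (hp : AnalyticOnNhd ℝ p univ) (z₀ : Fin n → ℂ) :
    ∃ r > 0, ∃ d ≤ (k ^ n) ^ n, ∃ a b : Fin d → (Fin n → ℂ) → ℂ,
      (∀ j, DifferentiableOn ℂ (a j) (ball z₀ r)) ∧ (∀ j, DifferentiableOn ℂ (b j) (ball z₀ r)) ∧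
      (∀ z ∈ ball z₀ r, (p z : ℂ) = ∑ j, a j z * starRingEnd ℂ (b j z)) ∧
      (∃ x : Fin d → (Fin n → ℂ), (∀ i, x i ∈ ball z₀ r) ∧
        (Matrix.of fun i j => a j (x i)).det ≠ 0) ∧
      (∃ y : Fin d → (Fin n → ℂ), (∀ i, y i ∈ ball z₀ r) ∧
        (Matrix.of fun i j => b j (y i)).det ≠ 0) := by
  classical
  set q : (Fin n → ℂ) → ℝ := fun z => p (z₀ + z) with hq
  have hqA : AnalyticAt ℝ q 0 := by
    have h1 : AnalyticAt ℝ p (z₀ + 0) := hp _ (mem_univ _)
    exact AnalyticAt.comp (g := p) (f := fun z => z₀ + z) h1 (by fun_prop)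
  have hqL : LR k q := by
    intro a v
    obtain ⟨ε, g, hg, h⟩ := hLR (z₀ + a) v
    refine ⟨ε, g, hg, fun t => ?_⟩
    rw [hq]
    simp only [← add_assoc]
    exact h t
  obtain ⟨r, hr, P, hP1, hP2, hP3, hRK⟩ := local_rank hqL hqA
  obtain ⟨d, hd, x, y, hx, hy, hdet, hmax⟩ := exists_max hRK
  have hfac := factor_of_max hx hy hdet hmax
  set G : Matrix (Fin d) (Fin d) ℂ := Matrix.of fun i j => P (x i) (y j) with hG
  have hsub : ∀ z, z ∈ ball z₀ r → z - z₀ ∈ ball (0 : Fin n → ℂ) r := by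
    intro z hz
    rw [mem_ball_zero_iff]; rwa [mem_ball, dist_eq_norm] at hz
  have hadd : ∀ z, z ∈ ball (0 : Fin n → ℂ) r → z₀ + z ∈ ball z₀ r := by
    intro z hz
    rw [mem_ball_zero_iff] at hz; rw [mem_ball, dist_eq_norm]; simpa using hz
  refine ⟨r, hr, d, hd, fun j z => P (z - z₀) (y j),
    fun j z => ∑ i, starRingEnd ℂ (G⁻¹ j i) * starRingEnd ℂ (P (x i) (z - z₀)), ?_, ?_, ?_, ?_, ?_⟩
  · intro j
    refine (hP1 _ (hy j)).comp (by fun_prop) ?_
    intro z hz; exact hsub z hz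
  · intro j
    refine DifferentiableOn.fun_sum (fun i _ => ?_)
    refine DifferentiableOn.const_mul ?_ _
    refine (hP2 _ (hx i)).comp (f := fun z : Fin n → ℂ => z - z₀) (by fun_prop) ?_
    intro z hz; exact hsub z hz
  · intro z hz
    have h1 : (p z : ℂ) = P (z - z₀) (z - z₀) := by
      rw [hP3 _ (hsub z hz), hq]; simp
    rw [h1, hfac _ (hsub z hz) _ (hsub z hz)]
    refine Finset.sum_congr rfl (fun j _ => ?_)
    rw [map_sum, Finset.mul_sum]
    refine Finset.sum_congr rfl (fun i _ => ?_)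
    rw [map_mul, Complex.conj_conj, Complex.conj_conj]
    ring
  · refine ⟨fun i => z₀ + x i, fun i => hadd _ (hx i), ?_⟩
    simpa using hdet
  · refine ⟨fun i => z₀ + y i, fun i => hadd _ (hy i), ?_⟩
    have hu : IsUnit G.det := isUnit_iff_ne_zero.2 hdet
    have h1 : (Matrix.of fun i j => ∑ i_1, starRingEnd ℂ (G⁻¹ j i_1) *
        starRingEnd ℂ (P (x i_1) (z₀ + y i - z₀))) = (1 : Matrix (Fin d) (Fin d) ℂ) := by
      ext i j
      simp only [Matrix.of_apply, add_sub_cancel_left]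
      have h2 : (∑ i_1, starRingEnd ℂ (G⁻¹ j i_1) * starRingEnd ℂ (P (x i_1) (y i))) =
          starRingEnd ℂ ((G⁻¹ * G) j i) := by
        rw [Matrix.mul_apply, map_sum]
        refine Finset.sum_congr rfl (fun l _ => ?_)
        rw [map_mul]; rfl
      rw [h2, Matrix.nonsing_inv_mul _ hu, Matrix.one_apply, Matrix.one_apply]
      by_cases h : i = j
      · simp [h]
      · simp [h, Ne.symm h]
    rw [h1, Matrix.det_one]
    exact one_ne_zero

end Pool.Agent.N673.HR
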