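import Pool.Agent.N673.HR.Local
import Pool.Agent.N673.HR.Grow

set_option autoImplicit false

open Complex Metric Set Filter Topology

namespace Pool.Agent.N673.HR

variable {E : Type*} [NormedAddCommGroup E] [NormedSpace ℂ E]

/-- non-singular evaluation points can be moved into any open subset -/
theorem NI {W O : Set E} (hW : IsOpen W) (hWc : Convex ℝ W) (hO : IsOpen O)
    {z₀ : E} (hz₀ : z₀ ∈ O) (hz₀W : z₀ ∈ W) {d : ℕ} {h : Fin d → E → ℂ}
    (hh : ∀ j, DifferentiableOn ℂ (h j) W) {y : Fin d → E} (hy : ∀ i, y i ∈ W)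
    (hdet : (Matrix.of fun i j => h j (y i)).det ≠ 0) :
    ∃ y' : Fin d → E, (∀ i, y' i ∈ O) ∧ (Matrix.of fun i j => h j (y' i)).det ≠ 0 := by
  by_contra hno
  push Not at hno
  apply hdet
  set T : Set ℂ := {τ : ℂ | ∀ i, z₀ + τ • (y i - z₀) ∈ W} with hT
  have hTo : IsOpen T := by
    have : T = ⋂ i, {τ : ℂ | z₀ + τ • (y i - z₀) ∈ W} := by
      ext τ; simp [hT]
    rw [this]
    refine isOpen_iInter_of_finite (fun i => ?_)
    exact hW.preimage (f := fun τ : ℂ => z₀ + τ • (y i - z₀)) (by fun_prop)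
  have hTc : Convex ℝ T := by
    have : T = ⋂ i, {τ : ℂ | z₀ + τ • (y i - z₀) ∈ W} := by
      ext τ; simp [hT]
    rw [this]
    refine convex_iInter (fun i => ?_)
    have h := convex_line hWc z₀ (y i - z₀) z₀ 0
    have e : {τ : ℂ | z₀ + τ • (y i - z₀) ∈ W} =
        {τ : ℂ | z₀ + τ • (y i - z₀) ∈ W ∧ z₀ + (starRingEnd ℂ τ) • (0 : E) ∈ W} := by
      ext τ
      simp [hz₀W]
    rw [e]; exact h
  have h0T : (0 : ℂ) ∈ T := by simp [hT, hz₀W]
  have h1T : (1 : ℂ) ∈ T := by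
    simp only [hT, mem_ofPred_eq]
    intro i; simpa using hy i
  have hdf : DifferentiableOn ℂ (fun τ : ℂ =>
      (Matrix.of fun i j => h j (z₀ + τ • (y i - z₀))).det) T := by
    simp only [Matrix.det_apply]
    refine DifferentiableOn.fun_sum (fun σ _ => ?_)
    refine DifferentiableOn.const_smul ?_ _
    refine DifferentiableOn.fun_finsetProd (fun i _ => ?_)
    simp only [Matrix.of_apply]
    refine (hh i).comp (by fun_prop) ?_
    intro τ hτ; exact hτ _
  have ha := hdf.analyticOnNhd hTo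
  have hev : (fun τ : ℂ =>
      (Matrix.of fun i j => h j (z₀ + τ • (y i - z₀))).det) =ᶠ[𝓝 (0 : ℂ)] 0 := by
    have hall : ∀ᶠ τ : ℂ in 𝓝 0, ∀ i, z₀ + τ • (y i - z₀) ∈ O := by
      rw [eventually_all]
      intro i
      have hco : Continuous (fun τ : ℂ => z₀ + τ • (y i - z₀)) := by fun_prop
      have h := hco.tendsto 0
      simp only [zero_smul, add_zero] at h
      exact h.eventually (hO.mem_nhds hz₀)
    filter_upwards [hall] with τ hτ
    exact hno _ hτ
  have := ha.eqOn_zero_of_preconnected_of_eventuallyEq_zero hTc.isPreconnected h0T hev h1T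
  simpa using this

/-- extension of the functions of a representation across the overlap `U` -/
theorem ext_rep {V U : Set E} (hU : IsOpen U) (hUc : Convex ℝ U) (hUV : U ⊆ V)
    {d d' : ℕ} {A B : Fin d → E → ℂ} {a' b' : Fin d' → E → ℂ}
    (hA : ∀ j, DifferentiableOn ℂ (A j) U) (hB : ∀ j, DifferentiableOn ℂ (B j) U)
    (ha' : ∀ j, DifferentiableOn ℂ (a' j) V) (hb' : ∀ j, DifferentiableOn ℂ (b' j) V)
    (heq : ∀ z ∈ U, ∑ j, A j z * starRingEnd ℂ (B j z) = ∑ l, a' l z * starRingEnd ℂ (b' l z))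
    {y : Fin d → E} (hy : ∀ i, y i ∈ U) (hdet : (Matrix.of fun i j => B j (y i)).det ≠ 0) :
    ∃ h : Fin d → E → ℂ, (∀ j, DifferentiableOn ℂ (h j) V) ∧ ∀ z ∈ U, ∀ j, h j z = A j z := by
  classical
  have hSH : SH U (fun x y => ∑ j, A j x * starRingEnd ℂ (B j y) -
      ∑ l, a' l x * starRingEnd ℂ (b' l y)) :=
    SH.sub (SH.sum _ (fun j _ => SH.prod hU (hA j) (hB j)))
      (SH.sum _ (fun j _ => SH.prod hU ((ha' j).mono hUV) ((hb' j).mono hUV)))
  have key := PL hU hUc hSH (fun z hz => sub_eq_zero.2 (heq z hz))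
  set M : Matrix (Fin d) (Fin d) ℂ := Matrix.of fun i j => starRingEnd ℂ (B j (y i)) with hM
  have hMdet : M.det ≠ 0 := by
    intro h0
    apply hdet
    have e : M = (starRingEnd ℂ).mapMatrix (Matrix.of fun i j => B j (y i)) := by
      ext i j; simp [hM]
    rw [e, ← RingHom.map_det] at h0
    simpa using h0
  have hu : IsUnit M.det := isUnit_iff_ne_zero.2 hMdet
  refine ⟨fun j z => ∑ i, M⁻¹ j i * ∑ l, a' l z * starRingEnd ℂ (b' l (y i)), ?_, ?_⟩
  · intro j
    refine DifferentiableOn.fun_sum (fun i _ => ?_)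
    refine DifferentiableOn.const_mul ?_ _
    refine DifferentiableOn.fun_sum (fun l _ => ?_)
    exact (ha' l).mul_const _
  · intro z hz j
    have h1 : ∀ i, ∑ l, a' l z * starRingEnd ℂ (b' l (y i)) = ∑ j', M i j' * A j' z := by
      intro i
      have := sub_eq_zero.1 (key z hz (y i) (hy i))
      rw [← this]
      refine Finset.sum_congr rfl (fun j' _ => ?_)
      rw [mul_comm]; rfl
    simp only [h1]
    have h2 : ∑ i, M⁻¹ j i * ∑ j', M i j' * A j' z = ∑ j', (M⁻¹ * M) j j' * A j' z := by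
      simp only [Matrix.mul_apply, Finset.sum_mul, Finset.mul_sum]
      rw [Finset.sum_comm]
      refine Finset.sum_congr rfl (fun j' _ => Finset.sum_congr rfl (fun i _ => ?_))
      ring
    rw [h2, Matrix.nonsing_inv_mul _ hu]
    simp [Matrix.one_apply]

/-- real identity theorem for representations -/
theorem real_id {n d : ℕ} {p : (Fin n → ℂ) → ℝ} (hp : AnalyticOnNhd ℝ p univ) {ρ : ℝ}
    {a b : Fin d → (Fin n → ℂ) → ℂ} (hρ : 0 < ρ)
    (ha : ∀ j, DifferentiableOn ℂ (a j) (ball 0 ρ)) (hb : ∀ j, DifferentiableOn ℂ (b j) (ball 0 ρ))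
    (h0 : ∀ᶠ z in 𝓝 (0 : Fin n → ℂ), (p z : ℂ) = ∑ j, a j z * starRingEnd ℂ (b j z)) :
    ∀ z ∈ ball (0 : Fin n → ℂ) ρ, (p z : ℂ) = ∑ j, a j z * starRingEnd ℂ (b j z) := by
  intro z hz
  set J : Set ℝ := {s : ℝ | s • z ∈ ball (0 : Fin n → ℂ) ρ} with hJ
  have hJo : IsOpen J := isOpen_ball.preimage (f := fun s : ℝ => s • z) (by fun_prop)
  have hJc : Convex ℝ J := by
    intro s hs t ht α β hα hβ hαβ
    have h := (convex_ball (0 : Fin n → ℂ) ρ) hs ht hα hβ hαβ
    show (α • s + β • t) • z ∈ ball (0 : Fin n → ℂ) ρ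
    have e : (α • s + β • t) • z = α • (s • z) + β • (t • z) := by
      rw [add_smul, smul_assoc, smul_assoc]
    rw [e]; exact h
  have h0J : (0 : ℝ) ∈ J := by simp [hJ, hρ]
  have h1J : (1 : ℝ) ∈ J := by simpa [hJ] using hz
  have hφ : AnalyticOnNhd ℝ (fun s : ℝ => ((p (s • z) : ℝ) : ℂ)) J := by
    intro s _
    have h1 : AnalyticAt ℝ p (s • z) := hp _ (mem_univ _)
    have h2 : AnalyticAt ℝ (fun s : ℝ => p (s • z)) s :=
      AnalyticAt.comp (g := p) (f := fun s : ℝ => s • z) h1 (by fun_prop)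
    exact (Complex.ofRealCLM.analyticAt _).comp h2
  have hol : ∀ f : (Fin n → ℂ) → ℂ, DifferentiableOn ℂ f (ball 0 ρ) →
      ∀ s ∈ J, AnalyticAt ℝ (fun s : ℝ => f (s • z)) s := by
    intro f hf s hs
    set Jc : Set ℂ := {τ : ℂ | τ • z ∈ ball (0 : Fin n → ℂ) ρ} with hJc'
    have hJco : IsOpen Jc := isOpen_ball.preimage (f := fun τ : ℂ => τ • z) (by fun_prop)
    have h1 : DifferentiableOn ℂ (fun τ : ℂ => f (τ • z)) Jc := by
      refine hf.comp (by fun_prop) ?_
      intro τ hτ; exact hτ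
    have hsz : ((s : ℂ)) ∈ Jc := by
      show (s : ℂ) • z ∈ ball (0 : Fin n → ℂ) ρ
      have : (s : ℂ) • z = s • z := by
        ext i; simp
      rw [this]; exact hs
    have h2 : AnalyticAt ℂ (fun τ : ℂ => f (τ • z)) (s : ℂ) := h1.analyticOnNhd hJco _ hsz
    have h3 : AnalyticAt ℝ (fun τ : ℂ => f (τ • z)) (s : ℂ) := h2.restrictScalars
    have h4 : AnalyticAt ℝ (fun s : ℝ => (s : ℂ)) s := Complex.ofRealCLM.analyticAt _
    have h5 : AnalyticAt ℝ (fun s : ℝ => f ((s : ℂ) • z)) s :=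
      AnalyticAt.comp (g := fun τ : ℂ => f (τ • z)) (f := fun s : ℝ => (s : ℂ)) h3 h4
    have e : (fun s : ℝ => f (s • z)) = fun s : ℝ => f ((s : ℂ) • z) := by
      ext s
      congr 1
    rw [e]; exact h5
  have hψ : AnalyticOnNhd ℝ (fun s : ℝ => ∑ j, a j (s • z) * starRingEnd ℂ (b j (s • z))) J := by
    intro s hs
    refine Finset.analyticAt_fun_sum _ (fun j _ => ?_)
    refine (hol _ (ha j) s hs).mul ?_
    exact (Complex.conjCLE.toContinuousLinearMap.analyticAt _).comp (hol _ (hb j) s hs)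
  have hev : (fun s : ℝ => ((p (s • z) : ℝ) : ℂ)) =ᶠ[𝓝 (0 : ℝ)]
      (fun s : ℝ => ∑ j, a j (s • z) * starRingEnd ℂ (b j (s • z))) := by
    have hco : Continuous (fun s : ℝ => s • z) := by fun_prop
    have h := hco.tendsto 0
    simp only [zero_smul] at h
    exact h.eventually h0
  have := hφ.eqOn_of_preconnected_of_eventuallyEq hψ hJc.isPreconnected h0J hev h1J
  simpa using this

/-- global representation -/
theorem global_rep {n k : ℕ} {p : (Fin n → ℂ) → ℝ} (hLR : LR k p)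
    (hp : AnalyticOnNhd ℝ p univ) :
    ∃ d ≤ (k ^ n) ^ n, ∃ a b : Fin d → (Fin n → ℂ) → ℂ,
      (∀ j, Differentiable ℂ (a j)) ∧ (∀ j, Differentiable ℂ (b j)) ∧
      ∀ z, (p z : ℂ) = ∑ j, a j z * starRingEnd ℂ (b j z) := by
  obtain ⟨r₀, hr₀, d, hd, a, b, ha, hb, hab, ⟨xa, hxa, hdeta⟩, ⟨yb, hyb, hdetb⟩⟩ :=
    local_rep hLR hp 0
  refine ⟨d, hd, ?_⟩
  set f : (Fin n → ℂ) → (Fin d → ℂ) × (Fin d → ℂ) := fun z => (fun j => a j z, fun j => b j z)
    with hf
  have hfd : DifferentiableOn ℂ f (ball 0 r₀) := by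
    refine DifferentiableOn.prodMk ?_ ?_
    · rw [differentiableOn_pi]; exact ha
    · rw [differentiableOn_pi]; exact hb
  have hcomp1 : ∀ (g : (Fin n → ℂ) → (Fin d → ℂ) × (Fin d → ℂ)) (S : Set (Fin n → ℂ)),
      DifferentiableOn ℂ g S → ∀ j, DifferentiableOn ℂ (fun z => (g z).1 j) S := by
    intro g S hg j
    exact (differentiableOn_pi.1 hg.fst) j
  have hcomp2 : ∀ (g : (Fin n → ℂ) → (Fin d → ℂ) × (Fin d → ℂ)) (S : Set (Fin n → ℂ)),
      DifferentiableOn ℂ g S → ∀ j, DifferentiableOn ℂ (fun z => (g z).2 j) S := by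
    intro g S hg j
    exact (differentiableOn_pi.1 hg.snd) j
  have hrep : ∀ ρ > 0, ∀ g : (Fin n → ℂ) → (Fin d → ℂ) × (Fin d → ℂ),
      DifferentiableOn ℂ g (ball 0 ρ) → g =ᶠ[𝓝 0] f →
      ∀ z ∈ ball (0 : Fin n → ℂ) ρ, (p z : ℂ) = ∑ j, (g z).1 j * starRingEnd ℂ ((g z).2 j) := by
    intro ρ hρ g hg hgf
    refine real_id hp hρ (a := fun j z => (g z).1 j) (b := fun j z => (g z).2 j)
      (hcomp1 g _ hg) (hcomp2 g _ hg) ?_
    filter_upwards [hgf, ball_mem_nhds (0 : Fin n → ℂ) hr₀] with z hz hz2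
    rw [hab z hz2]
    simp only [hz, hf]
  obtain ⟨G, hG, hGf⟩ := grow hr₀ hfd (by
    intro ρ hρ g hg hgf x hx
    obtain ⟨r, hr, d', -, a', b', ha', hb', hab', -, -⟩ := local_rep hLR hp x
    have hp1 := hrep ρ hρ g hg hgf
    set U : Set (Fin n → ℂ) := ball x r ∩ ball 0 ρ with hU
    have hUo : IsOpen U := isOpen_ball.inter isOpen_ball
    have hUc : Convex ℝ U := (convex_ball x r).inter (convex_ball (0 : Fin n → ℂ) ρ)
    -- a point of `U`
    have hcl : x ∈ closure (ball (0 : Fin n → ℂ) ρ) := by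
      rw [closure_ball (0 : Fin n → ℂ) hρ.ne']; exact hx
    obtain ⟨u, hu1, hu2⟩ := _root_.mem_closure_iff.1 hcl _ isOpen_ball (mem_ball_self hr)
    -- non-degeneracy near `0`
    have hgf' : ∀ᶠ z in 𝓝 (0 : Fin n → ℂ), g z = f z ∧ z ∈ ball (0 : Fin n → ℂ) ρ :=
      hgf.and (ball_mem_nhds _ hρ)
    obtain ⟨O, hOs, hOo, h0O⟩ := _root_.mem_nhds_iff.1 hgf'
    obtain ⟨x1, hx1O, hx1⟩ := NI isOpen_ball (convex_ball _ _) hOo h0O (mem_ball_self hr₀) ha hxa hdeta
    obtain ⟨y1, hy1O, hy1⟩ := NI isOpen_ball (convex_ball _ _) hOo h0O (mem_ball_self hr₀) hb hyb hdetb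
    have hx1' : (Matrix.of fun i j => (g (x1 i)).1 j).det ≠ 0 := by
      have : (Matrix.of fun i j => (g (x1 i)).1 j) = (Matrix.of fun i j => a j (x1 i)) := by
        ext i j
        simp only [Matrix.of_apply, (hOs (hx1O i)).1, hf]
      rw [this]; exact hx1
    have hy1' : (Matrix.of fun i j => (g (y1 i)).2 j).det ≠ 0 := by
      have : (Matrix.of fun i j => (g (y1 i)).2 j) = (Matrix.of fun i j => b j (y1 i)) := by
        ext i j
        simp only [Matrix.of_apply, (hOs (hy1O i)).1, hf]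
      rw [this]; exact hy1
    obtain ⟨x2, hx2U, hx2⟩ := NI (h := fun j z => (g z).1 j) isOpen_ball (convex_ball _ _) hUo
      ⟨hu1, hu2⟩ hu2 (hcomp1 g _ hg) (fun i => (hOs (hx1O i)).2) hx1'
    obtain ⟨y2, hy2U, hy2⟩ := NI (h := fun j z => (g z).2 j) isOpen_ball (convex_ball _ _) hUo
      ⟨hu1, hu2⟩ hu2 (hcomp2 g _ hg) (fun i => (hOs (hy1O i)).2) hy1'
    have heq1 : ∀ z ∈ U, ∑ j, (g z).1 j * starRingEnd ℂ ((g z).2 j) =
        ∑ l, a' l z * starRingEnd ℂ (b' l z) := by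
      intro z hz
      rw [← hp1 z hz.2, hab' z hz.1]
    have heq2 : ∀ z ∈ U, ∑ j, (g z).2 j * starRingEnd ℂ ((g z).1 j) =
        ∑ l, b' l z * starRingEnd ℂ (a' l z) := by
      intro z hz
      have := congrArg (starRingEnd ℂ) (heq1 z hz)
      rw [map_sum, map_sum] at this
      simp only [map_mul, Complex.conj_conj] at this
      rw [Finset.sum_congr rfl (fun j _ => mul_comm ((g z).2 j) _), this]
      refine Finset.sum_congr rfl (fun j _ => mul_comm _ _)
    obtain ⟨h1, hh1, hh1'⟩ := ext_rep (V := ball x r) hUo hUc inter_subset_left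
      (A := fun j z => (g z).1 j) (B := fun j z => (g z).2 j)
      (fun j => (hcomp1 g _ hg j).mono inter_subset_right)
      (fun j => (hcomp2 g _ hg j).mono inter_subset_right) ha' hb' heq1 hy2U hy2
    obtain ⟨h2, hh2, hh2'⟩ := ext_rep (V := ball x r) hUo hUc inter_subset_left
      (A := fun j z => (g z).2 j) (B := fun j z => (g z).1 j)
      (fun j => (hcomp2 g _ hg j).mono inter_subset_right)
      (fun j => (hcomp1 g _ hg j).mono inter_subset_right) hb' ha' heq2 hx2U hx2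
    refine ⟨r, hr, fun z => (fun j => h1 j z, fun j => h2 j z), ?_, ?_⟩
    · refine DifferentiableOn.prodMk ?_ ?_
      · rw [differentiableOn_pi]; exact hh1
      · rw [differentiableOn_pi]; exact hh2
    · intro z hz
      refine Prod.ext ?_ ?_
      · funext j; exact hh1' z hz j
      · funext j; exact hh2' z hz j)
  refine ⟨fun j z => (G z).1 j, fun j z => (G z).2 j, ?_, ?_, ?_⟩
  · intro j
    rw [← differentiableOn_univ]
    exact hcomp1 G _ hG.differentiableOn j
  · intro j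
    rw [← differentiableOn_univ]
    exact hcomp2 G _ hG.differentiableOn j
  · intro z
    exact hrep (‖z‖ + 1) (by positivity) G hG.differentiableOn hGf z (by simp)

/-- final form -/
theorem final {n k : ℕ} {p : (Fin n → ℂ) → ℝ} (hLR : LR k p)
    (hp : AnalyticOnNhd ℝ p univ) :
    ∃ (ε : Fin ((k ^ n) ^ n + (k ^ n) ^ n) → ℝ)
      (f : Fin ((k ^ n) ^ n + (k ^ n) ^ n) → (Fin n → ℂ) → ℂ),
      (∀ j, ε j = 1 ∨ ε j = -1) ∧ (∀ j, Differentiable ℂ (f j)) ∧
      ∀ z, p z = ∑ j, ε j * Complex.normSq (f j z) := by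
  obtain ⟨d, hd, a, b, ha, hb, hab⟩ := global_rep hLR hp
  set K := (k ^ n) ^ n with hK
  refine ⟨Fin.addCases (fun _ => 1) (fun _ => -1),
    Fin.addCases (fun l z => if hl : (l : ℕ) < d then (a ⟨l, hl⟩ z + b ⟨l, hl⟩ z) / 2 else 0)
      (fun l z => if hl : (l : ℕ) < d then (a ⟨l, hl⟩ z - b ⟨l, hl⟩ z) / 2 else 0), ?_, ?_, ?_⟩
  · intro j
    refine Fin.addCases (fun l => ?_) (fun l => ?_) j
    · left; simp only [Fin.addCases_left]
    · right; simp only [Fin.addCases_right]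
  · intro j
    refine Fin.addCases (fun l => ?_) (fun l => ?_) j
    · simp only [Fin.addCases_left]
      by_cases hl : (l : ℕ) < d
      · simp only [hl, dite_true]
        have h1 : Differentiable ℂ (fun z => (a ⟨l, hl⟩ z + b ⟨l, hl⟩ z) * (2 : ℂ)⁻¹) :=
          ((ha ⟨l, hl⟩).add (hb ⟨l, hl⟩)).mul_const _
        simpa only [div_eq_mul_inv] using h1
      · simp only [hl, dite_false]
        exact differentiable_const _
    · simp only [Fin.addCases_right]
      by_cases hl : (l : ℕ) < d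
      · simp only [hl, dite_true]
        have h1 : Differentiable ℂ (fun z => (a ⟨l, hl⟩ z - b ⟨l, hl⟩ z) * (2 : ℂ)⁻¹) :=
          ((ha ⟨l, hl⟩).sub (hb ⟨l, hl⟩)).mul_const _
        simpa only [div_eq_mul_inv] using h1
      · simp only [hl, dite_false]
        exact differentiable_const _
  · intro z
    rw [Fin.sum_univ_add]
    simp only [Fin.addCases_left, Fin.addCases_right]
    rw [← Finset.sum_add_distrib]
    have h1 : ∀ l : Fin K, (1 : ℝ) * Complex.normSq
        (if hl : (l : ℕ) < d then (a ⟨l, hl⟩ z + b ⟨l, hl⟩ z) / 2 else 0) +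
        (-1) * Complex.normSq
        (if hl : (l : ℕ) < d then (a ⟨l, hl⟩ z - b ⟨l, hl⟩ z) / 2 else 0) =
        if hl : (l : ℕ) < d then (a ⟨l, hl⟩ z * starRingEnd ℂ (b ⟨l, hl⟩ z)).re else 0 := by
      intro l
      split_ifs with hl
      · simp only [Complex.normSq_apply, Complex.mul_re, Complex.conj_re, Complex.conj_im,
          Complex.div_re, Complex.div_im, Complex.add_re, Complex.add_im, Complex.sub_re,
          Complex.sub_im]
        simp
        ring
      · simp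
    rw [Finset.sum_congr rfl (fun l _ => h1 l)]
    obtain ⟨r, hr⟩ := Nat.exists_eq_add_of_le hd
    have h2 : p z = (∑ j, a j z * starRingEnd ℂ (b j z)).re := by
      rw [← hab z, Complex.ofReal_re]
    rw [h2, Complex.re_sum]
    clear_value K
    clear hK
    subst hr
    rw [Fin.sum_univ_add]
    simp

/-- from the hyperplane hypothesis to the line hypothesis -/
theorem LR_of_hyp {n k : ℕ} (hn : 2 ≤ n) {p : (Fin n → ℂ) → ℝ}
    (h : ∀ (a : Fin n → ℂ) (L : (Fin (n - 1) → ℂ) →ₗ[ℂ] (Fin n → ℂ)),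
        Function.Injective L →
        ∃ (ε : Fin k → ℝ) (g : Fin k → (Fin (n - 1) → ℂ) → ℂ),
          (∀ j, ε j = 1 ∨ ε j = -1) ∧ (∀ j, Differentiable ℂ (g j)) ∧
          ∀ x, p (a + L x) = ∑ j, ε j * Complex.normSq (g j x)) : LR k p := by
  obtain ⟨m, rfl⟩ : ∃ m, n = m + 2 := ⟨n - 2, by omega⟩
  change ∀ (a : Fin (m + 2) → ℂ) (L : (Fin (m + 1) → ℂ) →ₗ[ℂ] (Fin (m + 2) → ℂ)),
        Function.Injective L →
        ∃ (ε : Fin k → ℝ) (g : Fin k → (Fin (m + 1) → ℂ) → ℂ),
          (∀ j, ε j = 1 ∨ ε j = -1) ∧ (∀ j, Differentiable ℂ (g j)) ∧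
          ∀ x, p (a + L x) = ∑ j, ε j * Complex.normSq (g j x) at h
  -- the standard injection
  set ι : (Fin (m + 1) → ℂ) →ₗ[ℂ] (Fin (m + 2) → ℂ) :=
    { toFun := fun x => Fin.cons 0 x
      map_add' := by
        intro x y
        ext i
        refine Fin.cases ?_ (fun j => ?_) i <;> simp
      map_smul' := by
        intro c x
        ext i
        refine Fin.cases ?_ (fun j => ?_) i <;> simp } with hι
  have hιinj : Function.Injective ι := by
    intro x y hxy
    have : (Fin.cons 0 x : Fin (m + 2) → ℂ) = Fin.cons 0 y := hxy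
    exact (Fin.cons_injective2 this).2
  intro a v
  by_cases hv : v = 0
  · obtain ⟨ε, g, -, hg, hpg⟩ := h a ι hιinj
    refine ⟨ε, fun j _ => g j 0, fun j => differentiable_const _, fun t => ?_⟩
    have := hpg 0
    rw [map_zero, add_zero] at this
    rw [hv, smul_zero, add_zero, this]
  · set e₀ : Fin (m + 1) → ℂ := Pi.single 0 1 with he₀
    have he₀' : e₀ ≠ 0 := by
      intro h0
      have := congrFun h0 0
      simp [he₀] at this
    have hιe : ι e₀ ≠ 0 := by
      intro h0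
      apply he₀'
      apply hιinj
      rw [h0, map_zero]
    obtain ⟨A, hA⟩ := SeparatingDual.exists_continuousLinearEquiv_apply_eq (R := ℂ) hιe hv
    set L : (Fin (m + 1) → ℂ) →ₗ[ℂ] (Fin (m + 2) → ℂ) := A.toLinearEquiv.toLinearMap.comp ι with hL
    have hLinj : Function.Injective L := by
      intro x y hxy
      apply hιinj
      exact A.injective hxy
    obtain ⟨ε, g, -, hg, hpg⟩ := h a L hLinj
    refine ⟨ε, fun j t => g j (t • e₀), fun j => ?_, fun t => ?_⟩
    · exact (hg j).comp (by fun_prop)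
    · rw [← hpg (t • e₀)]
      congr 1
      rw [map_smul]
      congr 2
      exact hA.symm

end Pool.Agent.N673.HR
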