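import Mathlib

set_option autoImplicit false

open Complex Metric Set Filter Topology

namespace Pool.Agent.N673.HR

variable {E : Type*} [NormedAddCommGroup E] [NormedSpace ℂ E]

/-- A kernel `P` is sesqui-holomorphic along complex lines on `U`: holomorphic in the first
variable, antiholomorphic in the second. -/
def SH (U : Set E) (P : E → E → ℂ) : Prop :=
  ∀ z₁ z₂ y₁ y₂ : E, DifferentiableOn ℂ
    (fun τ : ℂ => P (z₁ + τ • z₂) (y₁ + (starRingEnd ℂ τ) • y₂))
    {τ : ℂ | z₁ + τ • z₂ ∈ U ∧ y₁ + (starRingEnd ℂ τ) • y₂ ∈ U}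

theorem isOpen_line {U : Set E} (hU : IsOpen U) (z₁ z₂ y₁ y₂ : E) :
    IsOpen {τ : ℂ | z₁ + τ • z₂ ∈ U ∧ y₁ + (starRingEnd ℂ τ) • y₂ ∈ U} := by
  refine IsOpen.inter (hU.preimage ?_) (hU.preimage ?_)
  · fun_prop
  · have : Continuous (fun τ : ℂ => (starRingEnd ℂ) τ) := Complex.continuous_conj
    fun_prop

theorem convex_line {U : Set E} (hU : Convex ℝ U) (z₁ z₂ y₁ y₂ : E) :
    Convex ℝ {τ : ℂ | z₁ + τ • z₂ ∈ U ∧ y₁ + (starRingEnd ℂ τ) • y₂ ∈ U} := by
  intro τ hτ σ hσ a b ha hb hab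
  refine ⟨?_, ?_⟩
  · have h := hU hτ.1 hσ.1 ha hb hab
    have e : z₁ + (a • τ + b • σ) • z₂ = a • (z₁ + τ • z₂) + b • (z₁ + σ • z₂) := by
      have h1 : z₁ = (a + b) • z₁ := by rw [hab, one_smul]
      calc z₁ + (a • τ + b • σ) • z₂ = (a + b) • z₁ + (a • τ + b • σ) • z₂ := by rw [← h1]
        _ = _ := by
          simp only [add_smul, smul_add, smul_assoc]
          abel
    rw [e]; exact h
  · have h := hU hτ.2 hσ.2 ha hb hab
    have e : y₁ + (starRingEnd ℂ (a • τ + b • σ)) • y₂ =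
        a • (y₁ + (starRingEnd ℂ τ) • y₂) + b • (y₁ + (starRingEnd ℂ σ) • y₂) := by
      have h1 : y₁ = (a + b) • y₁ := by rw [hab, one_smul]
      have h2 : starRingEnd ℂ (a • τ + b • σ) = a • starRingEnd ℂ τ + b • starRingEnd ℂ σ := by
        simp
      rw [h2]
      calc y₁ + (a • starRingEnd ℂ τ + b • starRingEnd ℂ σ) • y₂
          = (a + b) • y₁ + (a • starRingEnd ℂ τ + b • starRingEnd ℂ σ) • y₂ := by rw [← h1]
        _ = _ := by
          simp only [add_smul, smul_add, smul_assoc]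
          abel
    rw [e]; exact h

/-- real points accumulate at `0`. -/
theorem freq_real {T : Set ℂ} (hT : IsOpen T) (h0 : (0 : ℂ) ∈ T) {f : ℂ → ℂ}
    (hf : ∀ t : ℝ, (t : ℂ) ∈ T → f t = 0) : ∃ᶠ z in 𝓝[≠] (0 : ℂ), f z = 0 := by
  have ht : Tendsto (fun n : ℕ => (((1 : ℝ) / (n + 1) : ℝ) : ℂ)) atTop (𝓝[≠] (0 : ℂ)) := by
    rw [tendsto_nhdsWithin_iff]
    constructor
    · have := (Complex.continuous_ofReal.tendsto 0).comp
        (tendsto_one_div_add_atTop_nhds_zero_nat (𝕜 := ℝ))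
      rw [Complex.ofReal_zero] at this
      exact this
    · refine Eventually.of_forall (fun n => ?_)
      simp only [mem_compl_iff, mem_singleton_iff, ofReal_eq_zero]
      positivity
  refine ht.frequently (Eventually.frequently ?_)
  have h1 : ∀ᶠ n : ℕ in atTop, (((1 : ℝ) / (n + 1) : ℝ) : ℂ) ∈ T := by
    have := ht.eventually (eventually_nhdsWithin_of_eventually_nhds (hT.mem_nhds h0))
    exact this
  filter_upwards [h1] with n hn
  exact hf _ hn

/-- **Polarization lemma.** -/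
theorem PL {U : Set E} (hU : IsOpen U) (hc : Convex ℝ U) {P : E → E → ℂ} (hP : SH U P)
    (h0 : ∀ z ∈ U, P z z = 0) : ∀ x ∈ U, ∀ y ∈ U, P x y = 0 := by
  intro x hx y hy
  set z₁ : E := ((1 : ℝ) / 2) • x + ((1 : ℝ) / 2) • y with hz₁
  set z₂ : E := (-(I / 2)) • (x - y) with hz₂
  set T : Set ℂ := {τ : ℂ | z₁ + τ • z₂ ∈ U ∧ z₁ + (starRingEnd ℂ τ) • z₂ ∈ U} with hT
  have hTo : IsOpen T := isOpen_line hU _ _ _ _
  have hTc : Convex ℝ T := convex_line hc _ _ _ _
  have hz₁U : z₁ ∈ U := hc hx hy (by norm_num) (by norm_num) (by norm_num)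
  have h0T : (0 : ℂ) ∈ T := by
    simp only [hT, mem_ofPred_eq, zero_smul, add_zero, map_zero]
    exact ⟨hz₁U, hz₁U⟩
  have e1 : z₁ + I • z₂ = x := by
    have : I • z₂ = ((1 : ℝ) / 2) • (x - y) := by
      rw [hz₂, smul_smul]
      have : I * -(I / 2) = (((1 : ℝ) / 2 : ℝ) : ℂ) := by
        push_cast
        ring_nf
        simp only [I_sq]
        norm_num
      rw [this]; rfl
    rw [this, hz₁, smul_sub]
    have : x = ((1 : ℝ) / 2) • x + ((1 : ℝ) / 2) • x := by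
      rw [← add_smul]; norm_num
    nth_rw 3 [this]
    abel
  have e2 : z₁ + (starRingEnd ℂ I) • z₂ = y := by
    have : (starRingEnd ℂ I) • z₂ = -(((1 : ℝ) / 2) • (x - y)) := by
      rw [hz₂, smul_smul, ← neg_smul]
      have : (starRingEnd ℂ) I * -(I / 2) = ((-((1 : ℝ) / 2) : ℝ) : ℂ) := by
        push_cast
        simp only [conj_I]
        ring_nf
        simp only [I_sq]
        norm_num
      rw [this]; rfl
    rw [this, hz₁, smul_sub]
    have : y = ((1 : ℝ) / 2) • y + ((1 : ℝ) / 2) • y := by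
      rw [← add_smul]; norm_num
    nth_rw 3 [this]
    abel
  have hIT : I ∈ T := by
    simp only [hT, mem_ofPred_eq]
    rw [e1, e2]; exact ⟨hx, hy⟩
  have hd : DifferentiableOn ℂ
      (fun τ : ℂ => P (z₁ + τ • z₂) (z₁ + (starRingEnd ℂ τ) • z₂)) T := hP z₁ z₂ z₁ z₂
  have ha := hd.analyticOnNhd hTo
  have hfr : ∃ᶠ z in 𝓝[≠] (0 : ℂ),
      (fun τ : ℂ => P (z₁ + τ • z₂) (z₁ + (starRingEnd ℂ τ) • z₂)) z = 0 := by
    apply freq_real hTo h0T
    intro t ht
    have h1 : z₁ + (t : ℂ) • z₂ ∈ U := ht.1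
    simp only [conj_ofReal]
    exact h0 _ h1
  have := ha.eqOn_zero_of_preconnected_of_frequently_eq_zero hTc.isPreconnected h0T hfr hIT
  simp only [e1, e2, Pi.zero_apply] at this
  exact this

/-- 1-d identity theorem along a line: a function which is complex differentiable on an open convex
set, and vanishes near one of its points, vanishes. -/
theorem line_id {F : Type*} [NormedAddCommGroup F] [NormedSpace ℂ F] [CompleteSpace F]
    {U : Set E} (hU : IsOpen U) (hc : Convex ℝ U) {f : E → F} (hf : DifferentiableOn ℂ f U)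
    {z₀ : E} (hz₀ : z₀ ∈ U) (h0 : ∀ᶠ z in 𝓝 z₀, f z = 0) : ∀ x ∈ U, f x = 0 := by
  intro x hx
  set T : Set ℂ := {τ : ℂ | z₀ + τ • (x - z₀) ∈ U} with hT
  have hTo : IsOpen T := hU.preimage (by fun_prop)
  have hTc : Convex ℝ T := by
    have h := convex_line hc z₀ (x - z₀) z₀ 0
    have e : T = {τ : ℂ | z₀ + τ • (x - z₀) ∈ U ∧ z₀ + (starRingEnd ℂ τ) • (0 : E) ∈ U} := by
      ext τ
      simp [hT, hz₀]
    rw [e]; exact h
  have h0T : (0 : ℂ) ∈ T := by simp [hT, hz₀]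
  have h1T : (1 : ℂ) ∈ T := by simp [hT, hx]
  have hd : DifferentiableOn ℂ (fun τ : ℂ => f (z₀ + τ • (x - z₀))) T := by
    apply hf.comp (by fun_prop)
    intro τ hτ; exact hτ
  have ha := hd.analyticOnNhd hTo
  have hev : (fun τ : ℂ => f (z₀ + τ • (x - z₀))) =ᶠ[𝓝 (0 : ℂ)] 0 := by
    have hcont : Tendsto (fun τ : ℂ => z₀ + τ • (x - z₀)) (𝓝 (0 : ℂ)) (𝓝 z₀) := by
      have : Continuous (fun τ : ℂ => z₀ + τ • (x - z₀)) := by fun_prop
      have h := this.tendsto 0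
      simpa using h
    exact hcont.eventually h0
  have := ha.eqOn_zero_of_preconnected_of_eventuallyEq_zero hTc.isPreconnected h0T hev h1T
  simpa using this

theorem line_id' {F : Type*} [NormedAddCommGroup F] [NormedSpace ℂ F] [CompleteSpace F]
    {U : Set E} (hU : IsOpen U) (hc : Convex ℝ U) {f g : E → F} (hf : DifferentiableOn ℂ f U)
    (hg : DifferentiableOn ℂ g U)
    {z₀ : E} (hz₀ : z₀ ∈ U) (h0 : ∀ᶠ z in 𝓝 z₀, f z = g z) : ∀ x ∈ U, f x = g x := by
  intro x hx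
  have := line_id hU hc (hf.sub hg) hz₀ (by
    filter_upwards [h0] with z hz
    simp [hz]) x hx
  exact sub_eq_zero.1 (by simpa using this)

/-! Closure properties of `SH`. -/

theorem SH.sub {U : Set E} {P Q : E → E → ℂ} (hP : SH U P) (hQ : SH U Q) :
    SH U (fun x y => P x y - Q x y) := by
  intro z₁ z₂ y₁ y₂
  exact (hP z₁ z₂ y₁ y₂).sub (hQ z₁ z₂ y₁ y₂)

theorem SH.sum {ι : Type*} {U : Set E} (s : Finset ι) {P : ι → E → E → ℂ}
    (hP : ∀ i ∈ s, SH U (P i)) :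
    SH U (fun x y => ∑ i ∈ s, P i x y) := by
  intro z₁ z₂ y₁ y₂
  exact DifferentiableOn.fun_sum (fun i hi => hP i hi z₁ z₂ y₁ y₂)

theorem SH.const_mul {U : Set E} {P : E → E → ℂ} (c : ℂ) (hP : SH U P) :
    SH U (fun x y => c * P x y) := by
  intro z₁ z₂ y₁ y₂
  exact (hP z₁ z₂ y₁ y₂).const_mul c

theorem SH.mono {U V : Set E} {P : E → E → ℂ} (hP : SH U P) (h : V ⊆ U) : SH V P := by
  intro z₁ z₂ y₁ y₂
  exact (hP z₁ z₂ y₁ y₂).mono (fun τ hτ => ⟨h hτ.1, h hτ.2⟩)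

/-- product of a holomorphic function and an antiholomorphic one. -/
theorem SH.prod {U : Set E} (hU : IsOpen U) {a b : E → ℂ} (ha : DifferentiableOn ℂ a U)
    (hb : DifferentiableOn ℂ b U) : SH U (fun x y => a x * starRingEnd ℂ (b y)) := by
  intro z₁ z₂ y₁ y₂
  have hTo := isOpen_line hU z₁ z₂ y₁ y₂
  apply DifferentiableOn.mul
  · apply ha.comp (by fun_prop)
    intro τ hτ; exact hτ.1
  · intro τ hτ
    apply DifferentiableAt.differentiableWithinAt
    have h1 : DifferentiableAt ℂ (fun σ : ℂ => b (y₁ + σ • y₂)) (starRingEnd ℂ τ) := by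
      have h2 : DifferentiableAt ℂ b (y₁ + (starRingEnd ℂ τ) • y₂) :=
        (hb _ hτ.2).differentiableAt (hU.mem_nhds hτ.2)
      exact DifferentiableAt.comp (starRingEnd ℂ τ) h2 (by fun_prop)
    have h3 := h1.conj_conj
    simp only [Complex.conj_conj] at h3
    exact h3

end Pool.Agent.N673.HR
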