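import Pool.Agent.N673.HR.PL

set_option autoImplicit false

open Complex Metric Set Filter Topology

namespace Pool.Agent.N673.HR

variable {E : Type*} [NormedAddCommGroup E] [NormedSpace ℂ E]
variable {α β : Type*}

/-- some `d × d` minor is non-zero -/
def NZ (X : Set α) (Y : Set β) (M : α → β → ℂ) (d : ℕ) : Prop :=
  ∃ x : Fin d → α, ∃ y : Fin d → β, (∀ i, x i ∈ X) ∧ (∀ j, y j ∈ Y) ∧
    (Matrix.of fun i j => M (x i) (y j)).det ≠ 0

theorem NZ_zero (X : Set α) (Y : Set β) (M : α → β → ℂ) : NZ X Y M 0 :=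
  ⟨fun i => i.elim0, fun i => i.elim0, fun i => i.elim0, fun i => i.elim0, by simp⟩

/-- all `(k+1) × (k+1)` minors vanish -/
def RK (X : Set α) (Y : Set β) (M : α → β → ℂ) (k : ℕ) : Prop := ¬ NZ X Y M (k + 1)

/-- the Schur complement identity -/
theorem factor_of_max {X : Set α} {Y : Set β} {M : α → β → ℂ} {d : ℕ}
    {x : Fin d → α} {y : Fin d → β} (hx : ∀ i, x i ∈ X) (hy : ∀ j, y j ∈ Y)
    (hdet : (Matrix.of fun i j => M (x i) (y j)).det ≠ 0) (hmax : ¬ NZ X Y M (d + 1)) :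
    ∀ a ∈ X, ∀ b ∈ Y, M a b = ∑ j, ∑ i, M a (y j) *
      (Matrix.of fun i j => M (x i) (y j))⁻¹ j i * M (x i) b := by
  intro a ha b hb
  set G : Matrix (Fin d) (Fin d) ℂ := Matrix.of fun i j => M (x i) (y j) with hG
  have hu : IsUnit G.det := isUnit_iff_ne_zero.2 hdet
  let _ : Invertible G := Matrix.invertibleOfIsUnitDet G hu
  set e : Fin (d + 1) ≃ Fin d ⊕ Fin 1 := finSumFinEquiv.symm with he
  set x' : Fin d ⊕ Fin 1 → α := Sum.elim x (fun _ => a) with hx'
  set y' : Fin d ⊕ Fin 1 → β := Sum.elim y (fun _ => b) with hy'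
  have h1 : (Matrix.of fun i j => M (x' (e i)) (y' (e j))).det = 0 := by
    by_contra hne
    refine hmax ⟨fun i => x' (e i), fun i => y' (e i), ?_, ?_, hne⟩
    · intro i
      rcases h : e i with u | u
      · simp only [hx', h, Sum.elim_inl]; exact hx _
      · simp only [hx', h, Sum.elim_inr]; exact ha
    · intro i
      rcases h : e i with u | u
      · simp only [hy', h, Sum.elim_inl]; exact hy _
      · simp only [hy', h, Sum.elim_inr]; exact hb
  have h2 : (Matrix.of fun i j => M (x' (e i)) (y' (e j))) =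
      (Matrix.fromBlocks G (Matrix.of fun i (_ : Fin 1) => M (x i) b)
        (Matrix.of fun (_ : Fin 1) j => M a (y j))
        (Matrix.of fun (_ : Fin 1) (_ : Fin 1) => M a b)).submatrix e e := by
    ext i j
    simp only [Matrix.submatrix_apply, Matrix.of_apply]
    rcases h : e i with u | u <;> rcases h' : e j with v | v <;>
      simp [hx', hy', hG]
  rw [h2, Matrix.det_submatrix_equiv_self, Matrix.det_fromBlocks₁₁] at h1
  have h3 := (mul_eq_zero.1 h1).resolve_left hdet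
  rw [Matrix.det_unique] at h3
  simp only [Matrix.sub_apply, Matrix.of_apply] at h3
  have h4 := sub_eq_zero.1 h3
  rw [h4]
  simp only [Matrix.mul_apply, Matrix.of_apply, Matrix.invOf_eq_nonsing_inv, Finset.sum_mul]
  rw [Finset.sum_comm]

/-- minors vanish ⇒ factorization, with a non-singular minor -/
theorem exists_max {X : Set α} {Y : Set β} {M : α → β → ℂ} {k : ℕ} (h : RK X Y M k) :
    ∃ d ≤ k, ∃ x : Fin d → α, ∃ y : Fin d → β, (∀ i, x i ∈ X) ∧ (∀ j, y j ∈ Y) ∧
      (Matrix.of fun i j => M (x i) (y j)).det ≠ 0 ∧ ¬ NZ X Y M (d + 1) := by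
  classical
  have hex : ∃ d, ¬ NZ X Y M (d + 1) := ⟨k, h⟩
  have h1 := Nat.find_spec hex
  have h2 : Nat.find hex ≤ k := Nat.find_min' hex h
  have h3 : NZ X Y M (Nat.find hex) := by
    rcases h4 : Nat.find hex with _ | d
    · exact NZ_zero _ _ _
    · have := Nat.find_min hex (m := d) (by omega)
      exact not_not.1 this
  obtain ⟨x, y, hx, hy, hd⟩ := h3
  exact ⟨Nat.find hex, h2, x, y, hx, hy, hd, h1⟩

/-- minors vanish ⇒ factorization -/
theorem factor {X : Set α} {Y : Set β} {M : α → β → ℂ} {k : ℕ} (h : RK X Y M k) :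
    ∃ (u : Fin k → α → ℂ) (v : Fin k → β → ℂ), ∀ a ∈ X, ∀ b ∈ Y, M a b = ∑ l, u l a * v l b := by
  classical
  obtain ⟨d, hdk, x, y, hx, hy, hdet, hmax⟩ := exists_max h
  have hf := factor_of_max hx hy hdet hmax
  refine ⟨fun l a => if hl : (l : ℕ) < d then M a (y ⟨l, hl⟩) else 0,
    fun l b => if hl : (l : ℕ) < d then
      ∑ i, (Matrix.of fun i j => M (x i) (y j))⁻¹ ⟨l, hl⟩ i * M (x i) b else 0, ?_⟩
  intro a ha b hb
  rw [hf a ha b hb]
  have : ∀ l : Fin k, (if hl : (l : ℕ) < d then M a (y ⟨l, hl⟩) else 0) *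
      (if hl : (l : ℕ) < d then
        ∑ i, (Matrix.of fun i j => M (x i) (y j))⁻¹ ⟨l, hl⟩ i * M (x i) b else 0) =
      (if hl : (l : ℕ) < d then M a (y ⟨l, hl⟩) *
        ∑ i, (Matrix.of fun i j => M (x i) (y j))⁻¹ ⟨l, hl⟩ i * M (x i) b else 0) := by
    intro l; split_ifs <;> simp
  rw [Finset.sum_congr rfl (fun l _ => this l)]
  obtain ⟨r, rfl⟩ := Nat.exists_eq_add_of_le hdk
  rw [Fin.sum_univ_add]
  simp only [Fin.val_castAdd, Fin.is_lt, dite_true, Fin.val_natAdd, add_lt_iff_neg_left,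
    not_lt_zero, dite_false, Finset.sum_const_zero, add_zero, Fin.eta]
  refine Finset.sum_congr rfl (fun j _ => ?_)
  rw [Finset.mul_sum]
  refine Finset.sum_congr rfl (fun i _ => ?_)
  ring

/-- factorization ⇒ minors vanish -/
theorem RK_of_factor {ι : Type*} [Fintype ι] {X : Set α} {Y : Set β} {M : α → β → ℂ} {k : ℕ}
    (hk : Fintype.card ι ≤ k) (u : ι → α → ℂ) (v : ι → β → ℂ)
    (h : ∀ a ∈ X, ∀ b ∈ Y, M a b = ∑ l, u l a * v l b) : RK X Y M k := by
  rintro ⟨x, y, hx, hy, hdet⟩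
  set U : Matrix (Fin (k + 1)) ι ℂ := Matrix.of fun i l => u l (x i)
  set V : Matrix ι (Fin (k + 1)) ℂ := Matrix.of fun l j => v l (y j)
  have e : (Matrix.of fun i j => M (x i) (y j)) = U * V := by
    ext i j
    simp [U, V, Matrix.mul_apply, h _ (hx i) _ (hy j)]
  rw [e] at hdet
  have h1 := Matrix.rank_of_det_ne_zero hdet
  have h2 := (Matrix.rank_mul_le_left U V).trans (Matrix.rank_le_card_width U)
  rw [h1, Fintype.card_fin] at h2
  omega

theorem RK.swap {X : Set α} {Y : Set β} {M : α → β → ℂ} {k : ℕ} (h : RK X Y M k) :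
    RK Y X (fun y x => M x y) k := by
  rintro ⟨x, y, hx, hy, hdet⟩
  refine h ⟨y, x, hy, hx, ?_⟩
  rw [← Matrix.det_transpose]
  exact hdet

theorem RK.conj {X : Set α} {Y : Set β} {M : α → β → ℂ} {k : ℕ} (h : RK X Y M k) :
    RK X Y (fun x y => starRingEnd ℂ (M x y)) k := by
  rintro ⟨x, y, hx, hy, hdet⟩
  refine h ⟨x, y, hx, hy, ?_⟩
  intro h0
  apply hdet
  have : (Matrix.of fun i j => starRingEnd ℂ (M (x i) (y j))) =
      (starRingEnd ℂ).mapMatrix (Matrix.of fun i j => M (x i) (y j)) := by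
    ext i j; simp
  rw [this, ← RingHom.map_det, h0, map_zero]

/-- **rank product lemma**: rank `≤ k` in the `A`-direction (for every `b`), rank `≤ m` in the
`B`-direction (for every `t`) imply rank `≤ k m`. -/
theorem RPL {A : Set α} {B : Set E} (hB : IsOpen B) (hc : Convex ℝ B) {Y : Set β}
    {Ψ : α → E → β → ℂ} (hΨ : ∀ t ∈ A, ∀ y ∈ Y, DifferentiableOn ℂ (fun b => Ψ t b y) B)
    {k m : ℕ} (h1 : ∀ b ∈ B, RK A Y (fun t y => Ψ t b y) k)
    (h2 : ∀ t ∈ A, RK B Y (fun b y => Ψ t b y) m) :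
    RK (A ×ˢ B) Y (fun q y => Ψ q.1 q.2 y) (k * m) := by
  classical
  rcases B.eq_empty_or_nonempty with hBe | ⟨b', hb'⟩
  · rintro ⟨x, y, hx, hy, hdet⟩
    have := (hx 0).2
    rw [hBe] at this
    exact this.elim
  -- maximal non-vanishing minor in the `A` direction
  have hex : ∃ d, ∀ b ∈ B, ¬ NZ A Y (fun t y => Ψ t b y) (d + 1) := ⟨k, h1⟩
  set d := Nat.find hex with hd
  have hd1 := Nat.find_spec hex
  have hdk : d ≤ k := Nat.find_min' hex h1
  have hd2 : ∃ b ∈ B, NZ A Y (fun t y => Ψ t b y) d := by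
    rcases h4 : d with _ | d'
    · exact ⟨b', hb', NZ_zero _ _ _⟩
    · have := Nat.find_min hex (m := d') (by omega)
      push Not at this
      exact this
  obtain ⟨b₀, hb₀, t, y, ht, hy, hdet⟩ := hd2
  -- the minor is non-zero near `b₀`
  have hcont : ContinuousOn (fun b => (Matrix.of fun i j => Ψ (t i) b (y j)).det) B := by
    simp only [Matrix.det_apply]
    refine continuousOn_finsetSum _ (fun σ _ => ?_)
    refine ContinuousOn.const_smul ?_ _
    refine continuousOn_finsetProd _ (fun i _ => ?_)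
    exact (hΨ _ (ht _) _ (hy _)).continuousOn
  have hca : ContinuousAt (fun b => (Matrix.of fun i j => Ψ (t i) b (y j)).det) b₀ :=
    hcont.continuousAt (hB.mem_nhds hb₀)
  have hnear : ∀ᶠ b in 𝓝 b₀, (Matrix.of fun i j => Ψ (t i) b (y j)).det ≠ 0 ∧ b ∈ B :=
    (hca.eventually_ne hdet).and (hB.mem_nhds hb₀)
  obtain ⟨O, hOsub, hOo, hbO⟩ := _root_.mem_nhds_iff.1 hnear
  -- factorization on `A × O`
  have hfac : ∀ i, ∃ (u : Fin m → E → ℂ) (v : Fin m → β → ℂ), ∀ b ∈ B, ∀ y ∈ Y,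
      Ψ (t i) b y = ∑ l, u l b * v l y := fun i => factor (h2 _ (ht i))
  choose u v huv using hfac
  have hO : RK (A ×ˢ O) Y (fun q y => Ψ q.1 q.2 y) (k * m) := by
    refine RK_of_factor (ι := Fin d × Fin m) ?_
      (fun p q => ∑ j, Ψ q.1 q.2 (y j) *
        (Matrix.of fun i j => Ψ (t i) q.2 (y j))⁻¹ j p.1 * u p.1 p.2 q.2)
      (fun p y' => v p.1 p.2 y') ?_
    · rw [Fintype.card_prod, Fintype.card_fin, Fintype.card_fin]
      exact Nat.mul_le_mul_right _ hdk
    · rintro ⟨t', b⟩ ⟨ht', hb⟩ y' hy'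
      simp only at ht' hb ⊢
      have hbB : b ∈ B := (hOsub hb).2
      have hf : Ψ t' b y' = ∑ j, ∑ i, Ψ t' b (y j) *
          (Matrix.of fun i j => Ψ (t i) b (y j))⁻¹ j i * Ψ (t i) b y' :=
        factor_of_max (M := fun t y => Ψ t b y) ht hy (hOsub hb).1 (hd1 b hbB) t' ht' y' hy'
      rw [hf, Fintype.sum_prod_type, Finset.sum_comm]
      refine Finset.sum_congr rfl (fun i _ => ?_)
      simp only [huv i b hbB y' hy', Finset.sum_mul, Finset.mul_sum]
      rw [Finset.sum_comm]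
      refine Finset.sum_congr rfl (fun l _ => Finset.sum_congr rfl (fun j _ => ?_))
      ring
  -- extension to `A × B` by the identity theorem
  rintro ⟨x, y', hx, hy', hdet'⟩
  apply hdet'
  set T : Set ℂ := {τ : ℂ | ∀ i, b₀ + τ • ((x i).2 - b₀) ∈ B} with hT
  have hTo : IsOpen T := by
    have : T = ⋂ i, {τ : ℂ | b₀ + τ • ((x i).2 - b₀) ∈ B} := by
      ext τ; simp [hT]
    rw [this]
    refine isOpen_iInter_of_finite (fun i => ?_)
    exact hB.preimage (f := fun τ : ℂ => b₀ + τ • ((x i).2 - b₀)) (by fun_prop)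
  have hTc : Convex ℝ T := by
    have : T = ⋂ i, {τ : ℂ | b₀ + τ • ((x i).2 - b₀) ∈ B} := by
      ext τ; simp [hT]
    rw [this]
    refine convex_iInter (fun i => ?_)
    have h := convex_line hc b₀ ((x i).2 - b₀) b₀ 0
    have e : {τ : ℂ | b₀ + τ • ((x i).2 - b₀) ∈ B} =
        {τ : ℂ | b₀ + τ • ((x i).2 - b₀) ∈ B ∧ b₀ + (starRingEnd ℂ τ) • (0 : E) ∈ B} := by
      ext τ
      simp [hb₀]
    rw [e]; exact h
  have h0T : (0 : ℂ) ∈ T := by simp [hT, hb₀]
  have h1T : (1 : ℂ) ∈ T := by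
    simp only [hT, mem_ofPred_eq]
    intro i; simpa using (hx i).2
  have hdf : DifferentiableOn ℂ (fun τ : ℂ =>
      (Matrix.of fun i j => Ψ (x i).1 (b₀ + τ • ((x i).2 - b₀)) (y' j)).det) T := by
    simp only [Matrix.det_apply]
    refine DifferentiableOn.fun_sum (fun σ _ => ?_)
    refine DifferentiableOn.const_smul ?_ _
    refine DifferentiableOn.fun_finsetProd (fun i _ => ?_)
    simp only [Matrix.of_apply]
    refine (hΨ _ (hx _).1 _ (hy' _)).comp (by fun_prop) ?_
    intro τ hτ; exact hτ _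
  have ha := hdf.analyticOnNhd hTo
  have hev : (fun τ : ℂ =>
      (Matrix.of fun i j => Ψ (x i).1 (b₀ + τ • ((x i).2 - b₀)) (y' j)).det) =ᶠ[𝓝 (0 : ℂ)] 0 := by
    have hall : ∀ᶠ τ : ℂ in 𝓝 0, ∀ i, b₀ + τ • ((x i).2 - b₀) ∈ O := by
      rw [eventually_all]
      intro i
      have hco : Continuous (fun τ : ℂ => b₀ + τ • ((x i).2 - b₀)) := by fun_prop
      have h := hco.tendsto 0
      simp only [zero_smul, add_zero] at h
      exact h.eventually (hOo.mem_nhds hbO)
    filter_upwards [hall] with τ hτ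
    by_contra hne
    exact hO ⟨fun i => ((x i).1, b₀ + τ • ((x i).2 - b₀)), y', fun i => ⟨(hx i).1, hτ i⟩, hy', hne⟩
  have := ha.eqOn_zero_of_preconnected_of_eventuallyEq_zero hTc.isPreconnected h0T hev h1T
  simpa using this

/-- if all axis-parallel lines have rank `≤ k` then the rank is `≤ k ^ n`. -/
theorem axis (n : ℕ) : ∀ (k : ℕ) (Y : Set β) (Ψ : (Fin n → ℂ) → β → ℂ) (r : ℝ), 0 < r →
    (∀ y ∈ Y, DifferentiableOn ℂ (fun x => Ψ x y) (ball 0 r)) →
    (∀ l : Fin n, ∀ a ∈ ball (0 : Fin n → ℂ) r,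
      RK (ball (0 : ℂ) r) Y (fun t y => Ψ (Function.update a l t) y) k) →
    RK (ball 0 r) Y Ψ (k ^ n) := by
  induction n with
  | zero =>
    intro k Y Ψ r hr hd hl
    rintro ⟨x, y, hx, hy, hdet⟩
    apply hdet
    have h01 : (⟨0, by simp⟩ : Fin (k ^ 0 + 1)) ≠ ⟨1, by simp⟩ := by
      intro h
      simpa using congrArg Fin.val h
    refine Matrix.det_zero_of_row_eq h01 ?_
    have : x ⟨0, by simp⟩ = x ⟨1, by simp⟩ := Subsingleton.elim _ _
    ext j
    simp only [Matrix.of_apply]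
    rw [this]
  | succ n ih =>
    intro k Y Ψ r hr hd hl
    have hcons : ∀ (t : ℂ) (b : Fin n → ℂ), t ∈ ball (0 : ℂ) r → b ∈ ball (0 : Fin n → ℂ) r →
        (Fin.cons t b : Fin (n + 1) → ℂ) ∈ ball (0 : Fin (n + 1) → ℂ) r := by
      intro t b ht hb
      rw [mem_ball_zero_iff] at ht hb ⊢
      rw [pi_norm_lt_iff hr] at hb ⊢
      rw [Fin.forall_fin_succ]
      exact ⟨by simpa using ht, fun i => by simpa using hb i⟩
    have key := RPL (A := ball (0 : ℂ) r) (B := ball (0 : Fin n → ℂ) r) isOpen_ball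
      (convex_ball _ _) (Y := Y) (Ψ := fun t b y => Ψ (Fin.cons t b : Fin (n + 1) → ℂ) y)
      (k := k) (m := k ^ n) ?_ ?_ ?_
    · have hpow : k ^ (n + 1) = k * k ^ n := by rw [pow_succ, mul_comm]
      rw [hpow]
      rintro ⟨x, y, hx, hy, hdet⟩
      refine key ⟨fun i => (x i 0, Fin.tail (x i)), y, ?_, hy, ?_⟩
      · intro i
        have := hx i
        rw [mem_ball_zero_iff, pi_norm_lt_iff hr, Fin.forall_fin_succ] at this
        refine ⟨by simpa using this.1, ?_⟩
        rw [mem_ball_zero_iff, pi_norm_lt_iff hr]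
        exact this.2
      · simpa only [Fin.cons_self_tail] using hdet
    · intro t ht y hy
      refine (hd y hy).comp ?_ (fun b hb => hcons t b ht hb)
      rw [differentiableOn_pi]
      intro i
      refine Fin.cases ?_ (fun j => ?_) i
      · simp
      · simp only [Fin.cons_succ]
        fun_prop
    · intro b hb
      have := hl 0 (Fin.cons 0 b) (hcons 0 b (by simpa using hr) hb)
      simpa only [Fin.update_cons_zero] using this
    · intro t ht
      refine ih k Y (fun b y => Ψ (Fin.cons t b : Fin (n + 1) → ℂ) y) r hr ?_ ?_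
      · intro y hy
        refine (hd y hy).comp ?_ (fun b hb => hcons t b ht hb)
        rw [differentiableOn_pi]
        intro i
        refine Fin.cases ?_ (fun j => ?_) i
        · simp
        · simp only [Fin.cons_succ]
          fun_prop
      · intro l a ha
        have := hl l.succ (Fin.cons t a) (hcons t a ht ha)
        simpa only [← Fin.cons_update] using this

end Pool.Agent.N673.HR
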